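import Pool.Agent.Y635.CR.Main

/-!
# Canonical Ramsey theorem for blocks of consecutive primes: final forms

helper635
-/

set_option autoImplicit false

namespace Pool.Agent.Y635.CR

open Finset Filter

open Pool.Agent.H256R2.SC (ff)

theorem chn_mono {q a K K' : ℕ} {A c c' X H : ℝ} {k n : ℕ} (hK : K ≤ K') (hc : c' ≤ c) (hH : 0 ≤ H)
    (hff : 0 ≤ ff X) (h : Chn q a K A c X H k n) : Chn q a K' A c' X H k n := by
  obtain ⟨h1, h2, h3, h4, h5, h6, h7⟩ := h
  refine ⟨h1, h2, h3, ?_, h5, ?_, h7⟩
  · refine ((Set.ncard_le_ncard ?_ (near_finite _ _)).trans h4).trans hK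
    rintro p' ⟨hp', hd⟩
    exact ⟨hp', hd.trans (mul_le_mul_of_nonneg_right hc hff)⟩
  · intro i hi
    exact (mul_le_mul_of_nonneg_right hc hH).trans (h6 i hi)

/-- colour of a pair by its difference -/
noncomputable def dcol {C : Type} (F : ℕ → C) (Q : Finset ℕ) : C := F (elt Q 1 - elt Q 0)

theorem elt_big (Q : Finset ℕ) (i : ℕ) (hi : Q.card ≤ i) : elt Q i = 0 := by
  refine Nat.nth_of_card_le (fin_set Q) ?_
  rw [fin_card Q (fin_set Q)]
  exact hi

theorem elt_translate (Q : Finset ℕ) (b i : ℕ) (hi : i < Q.card) :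
    elt (Q.image (fun x => b + x)) i = b + elt Q i := by
  classical
  have h1 : Q.image (fun x => b + x) = (range Q.card).image (fun i => b + elt Q i) := by
    conv_lhs => rw [← img_elt Q]
    rw [image_image]
    rfl
  rw [h1]
  refine elt_img Q.card (fun i => b + elt Q i) ?_ i hi
  intro x hx y hy hxy
  exact Nat.add_lt_add_left (elt_lt Q x y hxy hy) b

theorem dcol_inv {C : Type} (F : ℕ → C) (Q : Finset ℕ) (b : ℕ) :
    dcol F (Q.image (fun x => b + x)) = dcol F Q := by
  classical
  have hc : (Q.image (fun x => b + x)).card = Q.card :=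
    card_image_of_injective _ (fun x y h => Nat.add_left_cancel h)
  unfold dcol
  rcases Nat.lt_or_ge 1 Q.card with h | h
  · rw [elt_translate Q b 1 h, elt_translate Q b 0 (by omega)]
    congr 1
    omega
  · rw [elt_big _ 1 (by rw [hc]; exact h), elt_big Q 1 h, Nat.zero_sub, Nat.zero_sub]

theorem elt_pair (x y : ℕ) (hxy : x < y) : elt {x, y} 0 = x ∧ elt {x, y} 1 = y := by
  classical
  have h1 : ({x, y} : Finset ℕ) = (range 2).image (fun i => if i = 0 then x else y) := by
    ext z
    simp only [mem_insert, mem_singleton, mem_image, mem_range]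
    constructor
    · rintro (rfl | rfl)
      · exact ⟨0, by norm_num, rfl⟩
      · exact ⟨1, by norm_num, rfl⟩
    · rintro ⟨i, hi, rfl⟩
      split_ifs
      · exact Or.inl rfl
      · exact Or.inr rfl
  have hm : StrictMonoOn (fun i => if i = 0 then x else y) (Set.Iio 2) := by
    intro i hi j hj hij
    rw [Set.mem_Iio] at hi hj
    have hi0 : i = 0 := by omega
    have hj1 : j ≠ 0 := by omega
    simp only [hi0, hj1, if_true, if_false]
    exact hxy
  rw [h1]
  exact ⟨elt_img 2 _ hm 0 (by norm_num), elt_img 2 _ hm 1 (by norm_num)⟩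

/-- the four canonical types for the differences -/
theorem four_types {C : Type} (F : ℕ → C) (u : ℕ → ℕ) (k : ℕ) (hu : ∀ i j, i < j → j ≤ k → u i < u j)
    (T : Finset ℕ) (hT : ∀ i ≤ k, u i ∈ T) (h : Canonical (dcol F) T) :
    (∀ i j i' j' : ℕ, i < j → j ≤ k → i' < j' → j' ≤ k → F (u j - u i) = F (u j' - u i')) ∨
    (∀ i j i' j' : ℕ, i < j → j ≤ k → i' < j' → j' ≤ k →
      (F (u j - u i) = F (u j' - u i') ↔ i = i')) ∨
    (∀ i j i' j' : ℕ, i < j → j ≤ k → i' < j' → j' ≤ k →
      (F (u j - u i) = F (u j' - u i') ↔ j = j')) ∨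
    (∀ i j i' j' : ℕ, i < j → j ≤ k → i' < j' → j' ≤ k →
      (F (u j - u i) = F (u j' - u i') ↔ i = i' ∧ j = j')) := by
  classical
  obtain ⟨I, E, hI, hE⟩ := h
  have hinj : ∀ i j, i ≤ k → j ≤ k → u i = u j → i = j := by
    intro i j hi hj hij
    rcases lt_trichotomy i j with h1 | h1 | h1
    · have := hu i j h1 hj
      omega
    · exact h1
    · have := hu j i h1 hi
      omega
  have hpair : ∀ i j, i < j → j ≤ k → ({u i, u j} : Finset ℕ) ⊆ T := by
    intro i j hij hj x hx
    rw [mem_insert, mem_singleton] at hx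
    rcases hx with rfl | rfl
    · exact hT i (by omega)
    · exact hT j hj
  have hcard : ∀ i j, i < j → j ≤ k → ({u i, u j} : Finset ℕ).card = 2 := by
    intro i j hij hj
    exact card_pair (by have := hu i j hij hj; omega)
  have hcol : ∀ i j, i < j → j ≤ k → dcol F {u i, u j} = F (u j - u i) := by
    intro i j hij hj
    obtain ⟨h1, h2⟩ := elt_pair (u i) (u j) (hu i j hij hj)
    unfold dcol
    rw [h1, h2]
  have hker : ∀ i j, i < j → j ≤ k → kernel I {u i, u j} = (I 2).image (fun s => if s = 0 then u i else u j) := by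
    intro i j hij hj
    obtain ⟨h1, h2⟩ := elt_pair (u i) (u j) (hu i j hij hj)
    unfold kernel
    rw [hcard i j hij hj]
    apply img_congr
    intro s hs
    have hs2 : s < 2 := mem_range.1 (hI 2 hs)
    rcases Nat.lt_or_ge s 1 with h3 | h3
    · obtain rfl : s = 0 := by omega
      rw [if_pos rfl]
      exact h1
    · obtain rfl : s = 1 := by omega
      rw [if_neg (by norm_num)]
      exact h2
  have key : ∀ i j i' j' : ℕ, i < j → j ≤ k → i' < j' → j' ≤ k →
      (F (u j - u i) = F (u j' - u i') ↔ (I 2).image (fun s => if s = 0 then u i else u j) =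
        (I 2).image (fun s => if s = 0 then u i' else u j')) := by
    intro i j i' j' h1 h2 h3 h4
    have h5 := hE _ _ (hpair i j h1 h2) (hpair i' j' h3 h4)
    rw [hcol i j h1 h2, hcol i' j' h3 h4, hker i j h1 h2, hker i' j' h3 h4, hcard i j h1 h2,
      hcard i' j' h3 h4] at h5
    have h6 : E 2 2 := by
      have h7 := hE _ _ (hpair i j h1 h2) (hpair i j h1 h2)
      rw [hcard i j h1 h2] at h7
      exact (h7.1 rfl).1
    rw [h5]
    exact ⟨fun h => h.2, fun h => ⟨h6, h⟩⟩
  have hsub := hI 2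
  have hI2 : I 2 = ∅ ∨ I 2 = {0} ∨ I 2 = {1} ∨ I 2 = {0, 1} := by
    by_cases h0 : 0 ∈ I 2
    · by_cases h1 : 1 ∈ I 2
      · right; right; right
        ext s
        rw [mem_insert, mem_singleton]
        constructor
        · intro hs
          have := mem_range.1 (hsub hs)
          omega
        · rintro (rfl | rfl)
          · exact h0
          · exact h1
      · right; left
        ext s
        rw [mem_singleton]
        constructor
        · intro hs
          have := mem_range.1 (hsub hs)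
          rcases Nat.lt_or_ge s 1 with h3 | h3
          · omega
          · obtain rfl : s = 1 := by omega
            exact absurd hs h1
        · rintro rfl
          exact h0
    · by_cases h1 : 1 ∈ I 2
      · right; right; left
        ext s
        rw [mem_singleton]
        constructor
        · intro hs
          have := mem_range.1 (hsub hs)
          rcases Nat.lt_or_ge s 1 with h3 | h3
          · obtain rfl : s = 0 := by omega
            exact absurd hs h0
          · omega
        · rintro rfl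
          exact h1
      · left
        ext s
        constructor
        · intro hs
          have := mem_range.1 (hsub hs)
          rcases Nat.lt_or_ge s 1 with h3 | h3
          · obtain rfl : s = 0 := by omega
            exact absurd hs h0
          · obtain rfl : s = 1 := by omega
            exact absurd hs h1
        · intro hs
          exact absurd hs (notMem_empty s)
  rcases hI2 with h | h | h | h
  · left
    intro i j i' j' h1 h2 h3 h4
    rw [key i j i' j' h1 h2 h3 h4, h, image_empty, image_empty]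
  · right; left
    intro i j i' j' h1 h2 h3 h4
    rw [key i j i' j' h1 h2 h3 h4, h]
    simp only [image_singleton, if_true, singleton_inj]
    exact ⟨fun h5 => hinj i i' (by omega) (by omega) h5, fun h5 => by rw [h5]⟩
  · right; right; left
    intro i j i' j' h1 h2 h3 h4
    rw [key i j i' j' h1 h2 h3 h4, h]
    simp only [image_singleton, one_ne_zero, if_false, singleton_inj]
    exact ⟨fun h5 => hinj j j' h2 h4 h5, fun h5 => by rw [h5]⟩
  · right; right; right
    intro i j i' j' h1 h2 h3 h4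
    rw [key i j i' j' h1 h2 h3 h4, h]
    simp only [image_insert, image_singleton, if_true, one_ne_zero, if_false]
    constructor
    · intro h5
      have e1 := elt_pair (u i) (u j) (hu i j h1 h2)
      have e2 := elt_pair (u i') (u j') (hu i' j' h3 h4)
      rw [h5] at e1
      exact ⟨hinj i i' (by omega) (by omega) (e1.1.symm.trans e2.1),
        hinj j j' h2 h4 (e1.2.symm.trans e2.2)⟩
    · rintro ⟨rfl, rfl⟩
      rfl

theorem final (k L : ℕ) (A : ℝ) : ∃ K : ℕ, ∃ c : ℝ, 0 < c ∧ ∀ q a : ℕ, Squarefree q → a.Coprime q →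
    ∃ X₀ : ℝ, ∀ X : ℝ, X₀ ≤ X → ∀ H : ℝ, Real.log X ≤ H → H ≤ c * ff X →
    (∀ (C : Type) (χ : Fin L → Finset ℕ → C), ∃ U : Finset ℕ, (∀ l, Canonical (χ l) U) ∧
      X ^ (7 / 8 : ℝ) ≤ ({n : ℕ | Chn q a K A c X H k n ∧
        (∃ N, blk n k = U.image (fun u => N + u)) ∧
        ∀ l, (∀ (Q : Finset ℕ) (b : ℕ), χ l (Q.image (fun x => b + x)) = χ l Q) →
          Canonical (χ l) (blk n k)}.ncard : ℝ)) ∧
    ∀ (C : Type) (F : ℕ → C),
      X ^ (7 / 8 : ℝ) ≤ ({n : ℕ | Chn q a K A c X H k n ∧
        ((∀ i j i' j' : ℕ, i < j → j ≤ k → i' < j' → j' ≤ k →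
          F (Nat.nth Nat.Prime (n + j) - Nat.nth Nat.Prime (n + i)) =
            F (Nat.nth Nat.Prime (n + j') - Nat.nth Nat.Prime (n + i'))) ∨
        (∀ i j i' j' : ℕ, i < j → j ≤ k → i' < j' → j' ≤ k →
          (F (Nat.nth Nat.Prime (n + j) - Nat.nth Nat.Prime (n + i)) =
            F (Nat.nth Nat.Prime (n + j') - Nat.nth Nat.Prime (n + i')) ↔ i = i')) ∨
        (∀ i j i' j' : ℕ, i < j → j ≤ k → i' < j' → j' ≤ k →
          (F (Nat.nth Nat.Prime (n + j) - Nat.nth Nat.Prime (n + i)) =
            F (Nat.nth Nat.Prime (n + j') - Nat.nth Nat.Prime (n + i')) ↔ j = j')) ∨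
        (∀ i j i' j' : ℕ, i < j → j ≤ k → i' < j' → j' ≤ k →
          (F (Nat.nth Nat.Prime (n + j) - Nat.nth Nat.Prime (n + i)) =
            F (Nat.nth Nat.Prime (n + j') - Nat.nth Nat.Prime (n + i')) ↔ i = i' ∧ j = j')))}.ncard : ℝ) := by
  classical
  obtain ⟨K1, c1, hc1, h1⟩ := main k L A
  obtain ⟨K2, c2, hc2, h2⟩ := main k 1 A
  refine ⟨max K1 K2, min c1 c2, lt_min hc1 hc2, fun q a hq ha => ?_⟩
  obtain ⟨X1, g1⟩ := h1 q a hq ha
  obtain ⟨X2, g2⟩ := h2 q a hq ha
  have hev : ∀ᶠ X : ℝ in atTop, 0 ≤ ff X ∧ 0 ≤ Real.log X :=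
    (Pool.Agent.H312R2.RG.C3.ff_tendsto.eventually_ge_atTop 0).and
      (Real.tendsto_log_atTop.eventually_ge_atTop 0)
  obtain ⟨X3, g3⟩ := Filter.eventually_atTop.1 hev
  refine ⟨max X1 (max X2 X3), fun X hX H hH1 hH2 => ?_⟩
  have hX1 : X1 ≤ X := (le_max_left _ _).trans hX
  have hX2 : X2 ≤ X := ((le_max_left _ _).trans (le_max_right _ _)).trans hX
  have hX3 : X3 ≤ X := ((le_max_right _ _).trans (le_max_right _ _)).trans hX
  obtain ⟨hff, hlog⟩ := g3 X hX3
  have hH0 : 0 ≤ H := hlog.trans hH1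
  refine ⟨fun C χ => ?_, fun C F => ?_⟩
  · obtain ⟨U, hU, hcard⟩ := g1 X hX1 H hH1 (hH2.trans (mul_le_mul_of_nonneg_right (min_le_left _ _) hff)) C χ
    refine ⟨U, hU, hcard.trans ?_⟩
    rw [Nat.cast_le]
    refine Set.ncard_le_ncard ?_ (chn_finite _ _ _ _ _ _ _ _ _)
    rintro n ⟨hn, N, hN⟩
    refine ⟨chn_mono (le_max_left _ _) (min_le_left _ _) hH0 hff hn, ⟨N, hN⟩, fun l hl => ?_⟩
    rw [hN]
    exact canonical_translate (χ l) hl U (hU l) N
  · obtain ⟨U, hU, hcard⟩ := g2 X hX2 H hH1 (hH2.trans (mul_le_mul_of_nonneg_right (min_le_right _ _) hff))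
      C (fun _ => dcol F)
    refine hcard.trans ?_
    rw [Nat.cast_le]
    refine Set.ncard_le_ncard ?_ (chn_finite _ _ _ _ _ _ _ _ _)
    rintro n ⟨hn, N, hN⟩
    refine ⟨chn_mono (le_max_right _ _) (min_le_right _ _) hH0 hff hn, ?_⟩
    have hcan : Canonical (dcol F) (blk n k) := by
      rw [hN]
      exact canonical_translate (dcol F) (dcol_inv F) U (hU 0) N
    refine four_types F (fun i => Nat.nth Nat.Prime (n + i)) k ?_ (blk n k) ?_ hcan
    · intro i j hij _
      exact Nat.nth_strictMono Nat.infinite_setOf_prime (by omega)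
    · intro i hi
      unfold blk
      exact mem_image.2 ⟨i, mem_range.2 (by omega), rfl⟩

end Pool.Agent.Y635.CR
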