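import Pool.Agent.H507R3.RamAll

/-!
# A finite canonical Ramsey theorem (Erdős–Rado) for all sizes at once

helper635
-/

set_option autoImplicit false

namespace Pool.Agent.Y635.CR

open Finset

/-- the `i`-th smallest element of `Q`, counted from `0` -/
noncomputable def elt (Q : Finset ℕ) (i : ℕ) : ℕ := Nat.nth (fun x => x ∈ Q) i

/-- the elements of `Q` in the positions `I #Q` -/
noncomputable def kernel (I : ℕ → Finset ℕ) (Q : Finset ℕ) : Finset ℕ := (I Q.card).image (elt Q)

/-- canonical colouring of the subsets of `T` -/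
def Canonical {C : Type} (χ : Finset ℕ → C) (T : Finset ℕ) : Prop :=
  ∃ (I : ℕ → Finset ℕ) (E : ℕ → ℕ → Prop), (∀ j, I j ⊆ range j) ∧
    ∀ Q Q' : Finset ℕ, Q ⊆ T → Q' ⊆ T → (χ Q = χ Q' ↔ E Q.card Q'.card ∧ kernel I Q = kernel I Q')

theorem Canonical.mono {C : Type} {χ : Finset ℕ → C} {T T' : Finset ℕ} (h : Canonical χ T)
    (hT : T' ⊆ T) : Canonical χ T' := by
  obtain ⟨I, E, h1, h2⟩ := h
  exact ⟨I, E, h1, fun Q Q' hQ hQ' => h2 Q Q' (hQ.trans hT) (hQ'.trans hT)⟩

theorem fin_set (Q : Finset ℕ) : {x : ℕ | x ∈ Q}.Finite := Q.finite_toSet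

theorem fin_card (Q : Finset ℕ) (h : {x : ℕ | x ∈ Q}.Finite) : h.toFinset.card = Q.card := by
  congr 1
  ext x
  simp

theorem elt_mem (Q : Finset ℕ) (i : ℕ) (hi : i < Q.card) : elt Q i ∈ Q :=
  Nat.nth_mem i (fun hf => by rw [fin_card Q hf]; exact hi)

theorem elt_lt (Q : Finset ℕ) (i j : ℕ) (hij : i < j) (hj : j < Q.card) : elt Q i < elt Q j :=
  Nat.nth_lt_nth' hij (fun hf => by rw [fin_card Q hf]; exact hj)

theorem elt_smono (Q : Finset ℕ) : StrictMonoOn (elt Q) (Set.Iio Q.card) :=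
  fun i _ j hj hij => elt_lt Q i j hij hj

/-- the enumeration of an image -/
theorem card_img (j : ℕ) (g : ℕ → ℕ) (hg : StrictMonoOn g (Set.Iio j)) (A : Finset ℕ)
    (hA : A ⊆ range j) : (A.image g).card = A.card :=
  card_image_of_injOn (hg.injOn.mono (fun a ha => mem_range.1 (hA ha)))

theorem count_img (j : ℕ) (g : ℕ → ℕ) (hg : StrictMonoOn g (Set.Iio j)) (A : Finset ℕ)
    (hA : A ⊆ range j) (i : ℕ) (hi : i < j) :
    Nat.count (fun x => x ∈ A.image g) (g i) = Nat.count (fun x => x ∈ A) i := by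
  classical
  rw [Nat.count_eq_card_filter_range, Nat.count_eq_card_filter_range]
  have h1 : (range (g i)).filter (fun x => x ∈ A.image g) =
      ((range i).filter (fun x => x ∈ A)).image g := by
    ext x
    simp only [mem_filter, mem_range, mem_image]
    constructor
    · rintro ⟨h1, a, ha, rfl⟩
      have haj : a < j := mem_range.1 (hA ha)
      exact ⟨a, ⟨(hg.lt_iff_lt haj hi).1 h1, ha⟩, rfl⟩
    · rintro ⟨a, ⟨h1, h2⟩, rfl⟩
      exact ⟨hg (lt_trans h1 hi) hi h1, a, h2, rfl⟩
  rw [h1]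
  apply card_img j g hg
  intro x hx
  exact hA (mem_filter.1 hx).2

theorem elt_img (j : ℕ) (g : ℕ → ℕ) (hg : StrictMonoOn g (Set.Iio j)) (i : ℕ) (hi : i < j) :
    elt ((range j).image g) i = g i := by
  classical
  have h1 := count_img j g hg (range j) (subset_refl _) i hi
  have h2 : Nat.count (fun x => x ∈ range j) i = i := by
    rw [Nat.count_eq_card_filter_range, filter_true_of_mem, card_range]
    intro x hx
    rw [mem_range] at hx ⊢
    omega
  rw [h2] at h1
  have h3 : Nat.nth (fun x => x ∈ (range j).image g) (Nat.count (fun x => x ∈ (range j).image g) (g i)) = g i :=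
    Nat.nth_count (mem_image.2 ⟨i, mem_range.2 hi, rfl⟩)
  rw [h1] at h3
  exact h3

theorem img_elt (Q : Finset ℕ) : (range Q.card).image (elt Q) = Q := by
  apply eq_of_subset_of_card_le
  · intro x hx
    obtain ⟨i, hi, rfl⟩ := mem_image.1 hx
    exact elt_mem Q i (mem_range.1 hi)
  · rw [card_img Q.card _ (elt_smono Q) _ (subset_refl _), card_range]

theorem elt_count (Q : Finset ℕ) (x : ℕ) (hx : x ∈ Q) : elt Q (Nat.count (fun y => y ∈ Q) x) = x :=
  Nat.nth_count hx

/-- invariance of the equality pattern under increasing maps -/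
def Inv {C : Type} (χ : Finset ℕ → C) (N R : ℕ) : Prop :=
  ∀ (W : Finset ℕ) (g : ℕ → ℕ), W ⊆ range N → W.card ≤ R → StrictMonoOn g (W : Set ℕ) →
    (∀ w ∈ W, g w < N) → ∀ Q Q', Q ⊆ W → Q' ⊆ W → (χ Q = χ Q' ↔ χ (Q.image g) = χ (Q'.image g))

open Classical in
theorem exists_inv (N R : ℕ) : ∃ M : ℕ, ∀ S : Finset ℕ, M ≤ S.card → ∀ (C : Type) (χ : Finset ℕ → C),
    ∃ T ⊆ S, T.card = N ∧ Inv (fun Q => χ (Q.image (elt T))) N R := by
  have : Fintype (Finset (Fin R) → Finset (Fin R) → Prop) := Fintype.ofFinite _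
  obtain ⟨M, hM⟩ := Pool.Agent.H507R3.RamAll.ramsey_all (Finset (Fin R) → Finset (Fin R) → Prop) R N
  refine ⟨M, fun S hS C χ => ?_⟩
  obtain ⟨T, hTS, hTN, hT⟩ := hM S (fun U A B => χ (A.image (fun a : Fin R => elt U a)) =
    χ (B.image (fun a : Fin R => elt U a))) hS
  refine ⟨T, hTS, hTN, ?_⟩
  intro W g hW hWR hg hgN Q Q' hQ hQ'
  have hWr : ∀ w ∈ W, w < N := fun w hw => mem_range.1 (hW hw)
  have hTm : StrictMonoOn (elt T) (Set.Iio N) := hTN ▸ elt_smono T
  -- the two sets
  set U : Finset ℕ := W.image (elt T) with hU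
  set V : Finset ℕ := (W.image g).image (elt T) with hV
  have hUT : U ⊆ T := by
    intro x hx
    obtain ⟨w, hw, rfl⟩ := mem_image.1 hx
    exact elt_mem T w (by rw [hTN]; exact hWr w hw)
  have hVT : V ⊆ T := by
    intro x hx
    obtain ⟨w, hw, rfl⟩ := mem_image.1 hx
    obtain ⟨v, hv, rfl⟩ := mem_image.1 hw
    exact elt_mem T _ (by rw [hTN]; exact hgN v hv)
  have hUm : StrictMonoOn (fun i => elt T (elt W i)) (Set.Iio W.card) := by
    intro i hi j hj hij
    exact hTm (hWr _ (elt_mem W i hi)) (hWr _ (elt_mem W j hj)) (elt_lt W i j hij hj)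
  have hVm : StrictMonoOn (fun i => elt T (g (elt W i))) (Set.Iio W.card) := by
    intro i hi j hj hij
    exact hTm (hgN _ (elt_mem W i hi)) (hgN _ (elt_mem W j hj))
      (hg (elt_mem W i hi) (elt_mem W j hj) (elt_lt W i j hij hj))
  have hUi : U = (range W.card).image (fun i => elt T (elt W i)) := by
    rw [hU]
    conv_lhs => rw [← img_elt W]
    rw [image_image]
    rfl
  have hVi : V = (range W.card).image (fun i => elt T (g (elt W i))) := by
    rw [hV]
    conv_lhs => rw [← img_elt W]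
    rw [image_image, image_image]
    rfl
  have hUc : U.card = W.card := by
    rw [hUi, card_img _ _ hUm _ (subset_refl _), card_range]
  have hVc : V.card = W.card := by
    rw [hVi, card_img _ _ hVm _ (subset_refl _), card_range]
  have hUe : ∀ i < W.card, elt U i = elt T (elt W i) := by
    intro i hi
    rw [hUi]
    exact elt_img _ _ hUm i hi
  have hVe : ∀ i < W.card, elt V i = elt T (g (elt W i)) := by
    intro i hi
    rw [hVi]
    exact elt_img _ _ hVm i hi
  obtain ⟨κ, hκ⟩ := hT W.card hWR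
  have h1 := hκ U hUT hUc
  have h2 := hκ V hVT hVc
  -- index sets
  have key : ∀ P : Finset ℕ, P ⊆ W → ∃ A : Finset (Fin R),
      A.image (fun a : Fin R => elt U a) = P.image (elt T) ∧
      A.image (fun a : Fin R => elt V a) = (P.image g).image (elt T) := by
    intro P hP
    refine ⟨univ.filter (fun a : Fin R => (a : ℕ) < W.card ∧ elt W a ∈ P), ?_, ?_⟩
    · ext x
      simp only [mem_image, mem_filter, mem_univ, true_and]
      constructor
      · rintro ⟨a, ⟨h3, h4⟩, rfl⟩
        exact ⟨_, h4, (hUe a h3).symm⟩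
      · rintro ⟨p, hp, rfl⟩
        have h5 := hP hp
        rw [← img_elt W] at h5
        obtain ⟨i, hi, rfl⟩ := mem_image.1 h5
        have hi' := mem_range.1 hi
        exact ⟨⟨i, by omega⟩, ⟨hi', hp⟩, hUe i hi'⟩
    · ext x
      simp only [mem_image, mem_filter, mem_univ, true_and]
      constructor
      · rintro ⟨a, ⟨h3, h4⟩, rfl⟩
        exact ⟨_, ⟨_, h4, rfl⟩, (hVe a h3).symm⟩
      · rintro ⟨_, ⟨p, hp, rfl⟩, rfl⟩
        have h5 := hP hp
        rw [← img_elt W] at h5
        obtain ⟨i, hi, rfl⟩ := mem_image.1 h5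
        have hi' := mem_range.1 hi
        exact ⟨⟨i, by omega⟩, ⟨hi', hp⟩, hVe i hi'⟩
  obtain ⟨A, hA1, hA2⟩ := key Q hQ
  obtain ⟨B, hB1, hB2⟩ := key Q' hQ'
  have h3 := congrFun (congrFun (h1.trans h2.symm) A) B
  simp only [hA1, hA2, hB1, hB2] at h3
  exact Iff.of_eq h3

theorem range_erase (j i : ℕ) (hi : i ≤ j) :
    (range (j + 1)).erase i = (range j).image (fun a => if a < i then a else a + 1) := by
  ext x
  simp only [mem_erase, mem_range, mem_image]
  constructor
  · rintro ⟨h1, h2⟩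
    rcases Nat.lt_or_ge x i with h | h
    · exact ⟨x, by omega, by rw [if_pos h]⟩
    · exact ⟨x - 1, by omega, by rw [if_neg (by omega)]; omega⟩
  · rintro ⟨a, h1, rfl⟩
    split_ifs <;> omega

end Pool.Agent.Y635.CR
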