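import Pool.Agent.Y635.CR.Canon

/-!
# A finite canonical Ramsey theorem (Erdős–Rado) for all sizes at once: the argument

helper635
-/

set_option autoImplicit false

namespace Pool.Agent.Y635.CR

open Finset

variable {C : Type}

/-- the essential positions of the sets with `j` elements -/
noncomputable def ess (χ : Finset ℕ → C) (j : ℕ) : Finset ℕ := by
  classical
  exact (range j).filter (fun i => ¬ χ ((range (j + 1)).erase i) = χ ((range (j + 1)).erase (i + 1)))

theorem ess_sub (χ : Finset ℕ → C) (j : ℕ) : ess χ j ⊆ range j := by
  classical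
  unfold ess
  exact filter_subset _ _

theorem not_ess (χ : Finset ℕ → C) (j i : ℕ) (hi : i < j) :
    i ∉ ess χ j ↔ χ ((range (j + 1)).erase i) = χ ((range (j + 1)).erase (i + 1)) := by
  classical
  unfold ess
  rw [mem_filter, mem_range]
  tauto

/-- moving one element -/
theorem move (χ : Finset ℕ → C) (N R : ℕ) (hI : Inv χ N R) (j i : ℕ) (hi : i < j) (hjR : j + 1 ≤ R)
    (hjN : j + 1 ≤ N) (g : ℕ → ℕ) (hg : StrictMonoOn g (Set.Iio (j + 1))) (hgN : ∀ a < j + 1, g a < N) :
    χ (((range (j + 1)).erase i).image g) = χ (((range (j + 1)).erase (i + 1)).image g) ↔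
      i ∉ ess χ j := by
  rw [not_ess χ j i hi]
  symm
  apply hI (range (j + 1)) g (range_subset_range.2 hjN) (by rw [card_range]; exact hjR)
  · intro a ha b hb hab
    exact hg (by simpa using ha) (by simpa using hb) hab
  · intro w hw
    exact hgN w (mem_range.1 hw)
  · exact erase_subset _ _
  · exact erase_subset _ _

theorem img_congr (A : Finset ℕ) (f g : ℕ → ℕ) (h : ∀ a ∈ A, f a = g a) : A.image f = A.image g :=
  image_congr (fun a ha => h a ha)

/-- same elements in the essential positions, pointwise comparable case -/
theorem same_le (χ : Finset ℕ → C) (N R : ℕ) (hI : Inv χ N R) (j : ℕ) (hjR : j + 1 ≤ R)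
    (hjN : j + 1 ≤ N) (u v : ℕ → ℕ) (hu : StrictMonoOn u (Set.Iio j)) (hv : StrictMonoOn v (Set.Iio j))
    (hvN : ∀ a < j, v a < N) (hle : ∀ a < j, u a ≤ v a) (huv : ∀ a ∈ ess χ j, u a = v a) :
    χ ((range j).image u) = χ ((range j).image v) := by
  classical
  have key : ∀ i ≤ j, χ ((range j).image (fun a => if a < i then u a else v a)) =
      χ ((range j).image v) := by
    intro i
    induction i with
    | zero =>
      intro _
      congr 1
    | succ i ih =>
      intro hi
      rw [← ih (by omega)]
      by_cases h : u i = v i
      · congr 1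
        apply img_congr
        intro a _
        by_cases h1 : a < i
        · rw [if_pos h1, if_pos (by omega)]
        · by_cases h2 : a = i
          · subst h2
            rw [if_neg h1, if_pos (by omega), h]
          · rw [if_neg h1, if_neg (by omega)]
      · have hlt : u i < v i := lt_of_le_of_ne (hle i (by omega)) h
        have hne : i ∉ ess χ j := fun h' => h (huv i h')
        have hgm : StrictMonoOn (fun a => if a ≤ i then u a else v (a - 1)) (Set.Iio (j + 1)) := by
          intro a ha b hb hab
          rw [Set.mem_Iio] at ha hb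
          dsimp only
          by_cases hb' : b ≤ i
          · rw [if_pos hb', if_pos (by omega)]
            exact hu (Set.mem_Iio.2 (by omega)) (Set.mem_Iio.2 (by omega)) hab
          · rw [if_neg hb']
            by_cases ha' : a ≤ i
            · rw [if_pos ha']
              have h1 : u a ≤ u i := (hu.le_iff_le (Set.mem_Iio.2 (by omega)) (Set.mem_Iio.2 (by omega))).2 ha'
              have h2 : v i ≤ v (b - 1) := (hv.le_iff_le (Set.mem_Iio.2 (by omega))
                (Set.mem_Iio.2 (by omega))).2 (by omega)
              omega
            · rw [if_neg ha']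
              exact hv (Set.mem_Iio.2 (by omega)) (Set.mem_Iio.2 (by omega)) (by omega)
        have hm := (move χ N R hI j i (by omega) hjR hjN (fun a => if a ≤ i then u a else v (a - 1)) hgm
          (by
            intro a ha
            split_ifs with h1
            · exact lt_of_le_of_lt (hle a (by omega)) (hvN a (by omega))
            · exact hvN _ (by omega))).2 hne
        rw [range_erase j i (by omega), range_erase j (i + 1) (by omega), image_image, image_image] at hm
        have e1 : (range j).image ((fun a => if a ≤ i then u a else v (a - 1)) ∘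
            (fun a => if a < i then a else a + 1)) =
            (range j).image (fun a => if a < i then u a else v a) := by
          apply img_congr
          intro a _
          simp only [Function.comp]
          split_ifs <;> first | rfl | (exfalso; omega) | (congr 1; omega) | (subst_vars; rfl)
        have e2 : (range j).image ((fun a => if a ≤ i then u a else v (a - 1)) ∘
            (fun a => if a < i + 1 then a else a + 1)) =
            (range j).image (fun a => if a < i + 1 then u a else v a) := by
          apply img_congr
          intro a _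
          simp only [Function.comp]
          split_ifs <;> first | rfl | (exfalso; omega) | (congr 1; omega) | (subst_vars; rfl)
        rw [e1, e2] at hm
        exact hm.symm
  have h1 := key j le_rfl
  rw [← h1]
  congr 1
  apply img_congr
  intro a ha
  rw [if_pos (mem_range.1 ha)]

/-- same elements in the essential positions -/
theorem same (χ : Finset ℕ → C) (N R : ℕ) (hI : Inv χ N R) (j : ℕ) (hjR : j + 1 ≤ R)
    (hjN : j + 1 ≤ N) (u v : ℕ → ℕ) (hu : StrictMonoOn u (Set.Iio j)) (hv : StrictMonoOn v (Set.Iio j))
    (huN : ∀ a < j, u a < N) (hvN : ∀ a < j, v a < N) (huv : ∀ a ∈ ess χ j, u a = v a) :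
    χ ((range j).image u) = χ ((range j).image v) := by
  have hm : StrictMonoOn (fun a => max (u a) (v a)) (Set.Iio j) := by
    intro a ha b hb hab
    have h1 := hu ha hb hab
    have h2 := hv ha hb hab
    exact max_lt_max h1 h2
  have hmN : ∀ a < j, max (u a) (v a) < N := fun a ha => max_lt (huN a ha) (hvN a ha)
  rw [same_le χ N R hI j hjR hjN u _ hu hm hmN (fun a _ => le_max_left _ _) (fun a ha => by
      simp [huv a ha]),
    same_le χ N R hI j hjR hjN v _ hv hm hmN (fun a _ => le_max_right _ _) (fun a ha => by
      simp [huv a ha])]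

/-- lowering one element by one -/
theorem lower (χ : Finset ℕ → C) (N R : ℕ) (hI : Inv χ N R) (j i : ℕ) (hi : i < j) (hjR : j + 1 ≤ R)
    (hjN : j + 1 ≤ N) (u : ℕ → ℕ) (hu : StrictMonoOn u (Set.Iio j)) (huN : ∀ a < j, u a < N)
    (h1 : 1 ≤ u i) (h2 : ∀ a < i, u a < u i - 1)
    (h : χ ((range j).image u) = χ ((range j).image (fun a => if a = i then u i - 1 else u a))) :
    i ∉ ess χ j := by
  classical
  have hgm : StrictMonoOn (fun a => if a < i then u a else if a = i then u i - 1 else u (a - 1))
      (Set.Iio (j + 1)) := by
    intro a ha b hb hab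
    rw [Set.mem_Iio] at ha hb
    dsimp only
    by_cases hb1 : b < i
    · rw [if_pos hb1, if_pos (by omega)]
      exact hu (Set.mem_Iio.2 (by omega)) (Set.mem_Iio.2 (by omega)) hab
    · rw [if_neg hb1]
      by_cases hb2 : b = i
      · rw [if_pos hb2, if_pos (by omega)]
        exact h2 a (by omega)
      · rw [if_neg hb2]
        have h3 : u i ≤ u (b - 1) := (hu.le_iff_le (Set.mem_Iio.2 (by omega))
          (Set.mem_Iio.2 (by omega))).2 (by omega)
        by_cases ha1 : a < i
        · rw [if_pos ha1]
          have := h2 a ha1
          omega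
        · rw [if_neg ha1]
          by_cases ha2 : a = i
          · rw [if_pos ha2]
            omega
          · rw [if_neg ha2]
            exact hu (Set.mem_Iio.2 (by omega)) (Set.mem_Iio.2 (by omega)) (by omega)
  refine (move χ N R hI j i hi hjR hjN _ hgm ?_).1 ?_
  · intro a ha
    split_ifs with h3 h4
    · exact huN a (by omega)
    · have := huN i hi
      omega
    · exact huN _ (by omega)
  · rw [range_erase j i (by omega), range_erase j (i + 1) (by omega), image_image, image_image]
    have e1 : (range j).image ((fun a => if a < i then u a else if a = i then u i - 1 else u (a - 1)) ∘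
        (fun a => if a < i then a else a + 1)) = (range j).image u := by
      apply img_congr
      intro a _
      simp only [Function.comp]
      split_ifs <;> first | rfl | (exfalso; omega) | (congr 1; omega) | (subst_vars; rfl)
    have e2 : (range j).image ((fun a => if a < i then u a else if a = i then u i - 1 else u (a - 1)) ∘
        (fun a => if a < i + 1 then a else a + 1)) =
        (range j).image (fun a => if a = i then u i - 1 else u a) := by
      apply img_congr
      intro a _
      simp only [Function.comp]
      split_ifs <;> first | rfl | (exfalso; omega) | (congr 1; omega) | (subst_vars; rfl)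
    rw [e1, e2]
    exact h

/-- the spaced set -/
def Sp (L N : ℕ) (x : ℕ) : Prop := L ∣ x ∧ 1 ≤ x ∧ x + L < N

theorem sp_add {L N x y : ℕ} (hx : Sp L N x) (hy : Sp L N y) (hxy : x < y) : x + L ≤ y := by
  obtain ⟨a, rfl⟩ := hx.1
  obtain ⟨b, rfl⟩ := hy.1
  have h1 : a < b := lt_of_mul_lt_mul_left hxy (Nat.zero_le _)
  calc L * a + L = L * (a + 1) := by ring
    _ ≤ L * b := Nat.mul_le_mul_left L h1

theorem sp_ge {L N x : ℕ} (hx : Sp L N x) : L ≤ x := Nat.le_of_dvd hx.2.1 hx.1

/-- equal colours force equal kernels -/
theorem kernel_eq (χ : Finset ℕ → C) (N R L : ℕ) (hI : Inv χ N R) (hL : 3 ≤ L) (j j' : ℕ)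
    (hR : j + j' + 1 ≤ R) (hjN : R ≤ N) (u v : ℕ → ℕ)
    (hu : StrictMonoOn u (Set.Iio j)) (hv : StrictMonoOn v (Set.Iio j'))
    (hus : ∀ a < j, Sp L N (u a)) (hvs : ∀ a < j', Sp L N (v a))
    (h : χ ((range j).image u) = χ ((range j').image v)) :
    ∀ i ∈ ess χ j, ∃ l ∈ ess χ j', u i = v l := by
  classical
  intro i hi
  by_contra hcon
  push Not at hcon
  have hij : i < j := mem_range.1 (ess_sub χ j hi)
  have huN : ∀ a < j, u a < N := fun a ha => by have := (hus a ha).2.2; omega
  have hvN : ∀ a < j', v a < N := fun a ha => by have := (hvs a ha).2.2; omega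
  obtain ⟨w, hw⟩ : ∃ w : ℕ → ℕ, w = fun a => if a ∈ ess χ j' then v a else v a + 1 := ⟨_, rfl⟩
  have hwm : StrictMonoOn w (Set.Iio j') := by
    intro a ha b hb hab
    have h1 := hv ha hb hab
    have h2 := sp_add (hvs a ha) (hvs b hb) h1
    rw [hw]
    dsimp only
    split_ifs <;> omega
  have hwN : ∀ a < j', w a < N := by
    intro a ha
    have := (hvs a ha).2.2
    rw [hw]
    dsimp only
    split_ifs <;> omega
  have hwv : χ ((range j').image w) = χ ((range j').image v) := by
    apply same χ N R hI j' (by omega) (by omega) w v hwm hv hwN hvN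
    intro a ha
    rw [hw]
    exact if_pos ha
  have hq1 : ∀ a < j', w a ≠ u i := by
    intro a ha heq
    rw [hw] at heq
    dsimp only at heq
    by_cases h1 : a ∈ ess χ j'
    · rw [if_pos h1] at heq
      exact hcon a h1 heq.symm
    · rw [if_neg h1] at heq
      obtain ⟨b, hb⟩ := (hvs a ha).1
      obtain ⟨c, hc⟩ := (hus i hij).1
      rw [hb, hc] at heq
      have : L ∣ 1 := (Nat.dvd_add_right (Dvd.intro b rfl)).1 (heq ▸ Dvd.intro c rfl)
      have := Nat.le_of_dvd one_pos this
      omega
  have hge := sp_ge (hus i hij)
  have hq2 : ∀ a < j', w a + 1 ≠ u i := by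
    intro a ha heq
    rw [hw] at heq
    dsimp only at heq
    obtain ⟨b, hb⟩ := (hvs a ha).1
    obtain ⟨c, hc⟩ := (hus i hij).1
    split_ifs at heq
    · rw [hb, hc] at heq
      have : L ∣ 1 := (Nat.dvd_add_right (Dvd.intro b rfl)).1 (heq ▸ Dvd.intro c rfl)
      have := Nat.le_of_dvd one_pos this
      omega
    · rw [hb, hc, add_assoc] at heq
      have : L ∣ 1 + 1 := (Nat.dvd_add_right (Dvd.intro b rfl)).1 (heq ▸ Dvd.intro c rfl)
      have := Nat.le_of_dvd (by norm_num) this
      omega
  have hq3 : ∀ a < j, u a ≠ u i → u a + 1 ≠ u i := by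
    intro a ha hne heq
    have h1 := sp_add (hus a ha) (hus i hij) (by omega)
    omega
  set W : Finset ℕ := (range j).image u ∪ (range j').image w with hW
  obtain ⟨g, hg⟩ : ∃ g : ℕ → ℕ, g = fun x => if x = u i then u i - 1 else x := ⟨_, rfl⟩
  have hWmem : ∀ x ∈ W, x ≠ u i → x + 1 ≠ u i := by
    intro x hx hne
    rw [hW, mem_union] at hx
    rcases hx with hx | hx
    · obtain ⟨a, ha, rfl⟩ := mem_image.1 hx
      exact hq3 a (mem_range.1 ha) hne
    · obtain ⟨a, ha, rfl⟩ := mem_image.1 hx
      exact hq2 a (mem_range.1 ha)
  have hWN : ∀ x ∈ W, x < N := by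
    intro x hx
    rw [hW, mem_union] at hx
    rcases hx with hx | hx
    · obtain ⟨a, ha, rfl⟩ := mem_image.1 hx
      exact huN a (mem_range.1 ha)
    · obtain ⟨a, ha, rfl⟩ := mem_image.1 hx
      exact hwN a (mem_range.1 ha)
  have hWc : W.card ≤ R := by
    have h1 := card_union_le ((range j).image u) ((range j').image w)
    have h2 : ((range j).image u).card ≤ j := card_image_le.trans (by rw [card_range])
    have h3 : ((range j').image w).card ≤ j' := card_image_le.trans (by rw [card_range])
    rw [← hW] at h1
    omega
  have hgm : StrictMonoOn g (W : Set ℕ) := by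
    intro x hx y hy hxy
    rw [hg]
    dsimp only
    by_cases h1 : x = u i
    · rw [if_pos h1, if_neg (by omega)]
      omega
    · rw [if_neg h1]
      by_cases h2 : y = u i
      · rw [if_pos h2]
        have := hWmem x hx h1
        omega
      · rw [if_neg h2]
        exact hxy
  have hinv := hI W g (fun x hx => mem_range.2 (hWN x hx)) hWc hgm (by
    intro x hx
    have := hWN x hx
    rw [hg]
    dsimp only
    split_ifs <;> omega) ((range j).image u) ((range j').image w) subset_union_left subset_union_right
  have h1 := hinv.1 (h.trans hwv.symm)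
  have h2 : ((range j').image w).image g = (range j').image w := by
    rw [image_image]
    apply img_congr
    intro a ha
    simp only [Function.comp, hg]
    rw [if_neg (hq1 a (mem_range.1 ha))]
  have h3 : ((range j).image u).image g = (range j).image (fun a => if a = i then u i - 1 else u a) := by
    rw [image_image]
    apply img_congr
    intro a ha
    simp only [Function.comp, hg]
    by_cases h4 : a = i
    · rw [if_pos h4, if_pos (by rw [h4])]
    · rw [if_neg h4, if_neg (fun h5 => h4 (hu.injOn (Set.mem_Iio.2 (mem_range.1 ha))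
        (Set.mem_Iio.2 hij) h5))]
  rw [h2, h3] at h1
  refine lower χ N R hI j i hij (by omega) (by omega) u hu huN (by omega) ?_ ?_ hi
  · intro a ha
    have h4 := hu (Set.mem_Iio.2 (by omega)) (Set.mem_Iio.2 hij) ha
    have h5 := sp_add (hus a (by omega)) (hus i hij) h4
    omega
  · rw [h1, hwv, h]

end Pool.Agent.Y635.CR
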