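import Pool.Agent.Y635.CR.Canon2

/-!
# A finite canonical Ramsey theorem (Erdős–Rado) for all sizes at once: conclusion

helper635
-/

set_option autoImplicit false

namespace Pool.Agent.Y635.CR

open Finset

variable {C : Type}

theorem count_le_card (A : Finset ℕ) (i : ℕ) : Nat.count (fun x => x ∈ A) i ≤ A.card := by
  rw [Nat.count_eq_card_filter_range]
  apply card_le_card
  intro x hx
  exact (mem_filter.1 hx).2

theorem count_lt_card (A : Finset ℕ) (i : ℕ) (hi : i ∈ A) : Nat.count (fun x => x ∈ A) i < A.card := by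
  have h1 := count_le_card A (i + 1)
  rw [Nat.count_succ, if_pos hi] at h1
  omega

/-- the kernels and the sizes determine the colour -/
theorem cross (χ : Finset ℕ → C) (N R L : ℕ) (hI : Inv χ N R) (hL : 3 ≤ L) (hRL : R < L) (j j' : ℕ)
    (hR : j + j' + 1 ≤ R) (hjN : R ≤ N) (u v x y : ℕ → ℕ)
    (hu : StrictMonoOn u (Set.Iio j)) (hv : StrictMonoOn v (Set.Iio j'))
    (hx : StrictMonoOn x (Set.Iio j)) (hy : StrictMonoOn y (Set.Iio j'))
    (hus : ∀ a < j, Sp L N (u a)) (hvs : ∀ a < j', Sp L N (v a))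
    (hxs : ∀ a < j, Sp L N (x a)) (hys : ∀ a < j', Sp L N (y a))
    (h : χ ((range j).image u) = χ ((range j').image v))
    (hk : (ess χ j).image x = (ess χ j').image y) :
    χ ((range j).image x) = χ ((range j').image y) := by
  classical
  obtain ⟨E0, hE0⟩ : ∃ E : Finset ℕ, E = (ess χ j).image u := ⟨_, rfl⟩
  obtain ⟨E1, hE1⟩ : ∃ E : Finset ℕ, E = (ess χ j).image x := ⟨_, rfl⟩
  have hE0' : E0 = (ess χ j').image v := by
    rw [hE0]
    ext z
    simp only [mem_image]
    constructor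
    · rintro ⟨i, hi, rfl⟩
      obtain ⟨l, hl, h1⟩ := kernel_eq χ N R L hI hL j j' hR hjN u v hu hv hus hvs h i hi
      exact ⟨l, hl, h1.symm⟩
    · rintro ⟨i, hi, rfl⟩
      obtain ⟨l, hl, h1⟩ := kernel_eq χ N R L hI hL j' j (by omega) hjN v u hv hu hvs hus h.symm i hi
      exact ⟨l, hl, h1.symm⟩
  have hE1' : E1 = (ess χ j').image y := by rw [hE1, hk]
  have hcard : E0.card = E1.card := by
    rw [hE0, hE1, card_img j u hu _ (ess_sub χ j), card_img j x hx _ (ess_sub χ j)]
  have hE1s : ∀ e ∈ E1, Sp L N e := by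
    intro e he
    rw [hE1] at he
    obtain ⟨i, hi, rfl⟩ := mem_image.1 he
    exact hxs i (mem_range.1 (ess_sub χ j hi))
  set cnt : ℕ → ℕ := fun w => Nat.count (fun z => z ∈ E0) w with hcnt
  have hcle : ∀ w, cnt w ≤ E1.card := fun w => hcard ▸ count_le_card E0 w
  have hclt : ∀ w ∈ E0, cnt w < E1.card := fun w hw => hcard ▸ count_lt_card E0 w hw
  have hcm : ∀ w w', w ≤ w' → cnt w ≤ cnt w' := fun w w' hw => Nat.count_monotone _ hw
  have hcs : ∀ w ∈ E0, ∀ w', w < w' → cnt w + 1 ≤ cnt w' := by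
    intro w hw w' hww
    have h1 := hcm (w + 1) w' hww
    have h2 : cnt (w + 1) = cnt w + 1 := by
      simp only [hcnt]
      rw [Nat.count_succ, if_pos hw]
    omega
  have hst : ∀ s t, s < t → t < E1.card → elt E1 s + L ≤ elt E1 t := fun s t h1 h2 =>
    sp_add (hE1s _ (elt_mem E1 s (by omega))) (hE1s _ (elt_mem E1 t h2)) (elt_lt E1 s t h1 h2)
  have hge : ∀ s, s < E1.card → L ≤ elt E1 s := fun s h1 => sp_ge (hE1s _ (elt_mem E1 s h1))
  have hlt : ∀ s, s < E1.card → elt E1 s + L < N := fun s h1 => (hE1s _ (elt_mem E1 s h1)).2.2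
  obtain ⟨b, hb⟩ : ∃ b : ℕ → ℕ, b = fun s => if s = 0 then 0 else elt E1 (s - 1) := ⟨_, rfl⟩
  have hb0 : b 0 = 0 := by rw [hb]; rfl
  have hbs : ∀ s, b (s + 1) = elt E1 s := by
    intro s
    rw [hb]
    dsimp only
    rw [if_neg (by omega), Nat.add_sub_cancel]
  have hb1 : ∀ s, s < E1.card → b s + L ≤ elt E1 s := by
    intro s hs
    rcases s with _ | s
    · rw [hb0]
      have := hge 0 hs
      omega
    · rw [hbs]
      exact hst s (s + 1) (by omega) hs
  have hb2 : ∀ s t, s < t → t ≤ E1.card → elt E1 s ≤ b t := by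
    intro s t h1 h2
    obtain ⟨t, rfl⟩ : ∃ t', t = t' + 1 := ⟨t - 1, by omega⟩
    rw [hbs]
    rcases Nat.lt_or_ge s t with h3 | h3
    · have := hst s t h3 (by omega)
      omega
    · obtain rfl : s = t := by omega
      exact le_rfl
  have hb3 : ∀ s t, s < t → t ≤ E1.card → b s + L ≤ b t := by
    intro s t h1 h2
    have h3 := hb1 s (by omega)
    have h4 := hb2 s t h1 h2
    omega
  have hb4 : ∀ s, s ≤ E1.card → b s + L < N ∨ b s = 0 := by
    intro s hs
    rcases s with _ | s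
    · right
      exact hb0
    · left
      rw [hbs]
      exact hlt s (by omega)
  obtain ⟨W, hW⟩ : ∃ W : Finset ℕ, W = (range j).image u ∪ (range j').image v := ⟨_, rfl⟩
  have hWc : W.card + 1 ≤ R := by
    have h1 := card_union_le ((range j).image u) ((range j').image v)
    have h2 : ((range j).image u).card ≤ j := card_image_le.trans (by rw [card_range])
    have h3 : ((range j').image v).card ≤ j' := card_image_le.trans (by rw [card_range])
    rw [← hW] at h1
    omega
  have hWN : W ⊆ range N := by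
    intro z hz
    rw [mem_range]
    rw [hW, mem_union] at hz
    rcases hz with hz | hz
    · obtain ⟨a, ha, rfl⟩ := mem_image.1 hz
      have := (hus a (mem_range.1 ha)).2.2
      omega
    · obtain ⟨a, ha, rfl⟩ := mem_image.1 hz
      have := (hvs a (mem_range.1 ha)).2.2
      omega
  obtain ⟨c, hc⟩ : ∃ c : ℕ → ℕ, c = fun w => (W.filter (fun z => z ≤ w)).card := ⟨_, rfl⟩
  have hc1 : ∀ w ∈ W, 1 ≤ c w := by
    intro w hw
    rw [hc]
    exact card_pos.2 ⟨w, mem_filter.2 ⟨hw, le_rfl⟩⟩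
  have hc2 : ∀ w, c w + 1 ≤ R := by
    intro w
    rw [hc]
    have := card_filter_le W (fun z => z ≤ w)
    dsimp only
    omega
  have hc3 : ∀ w w', w' ∈ W → w < w' → c w < c w' := by
    intro w w' hw' hww
    rw [hc]
    apply card_lt_card
    rw [Finset.ssubset_iff_of_subset]
    · exact ⟨w', mem_filter.2 ⟨hw', le_rfl⟩, fun h1 => by
        have := (mem_filter.1 h1).2
        omega⟩
    · intro z hz
      rw [mem_filter] at hz ⊢
      exact ⟨hz.1, by omega⟩
  obtain ⟨g, hg⟩ : ∃ g : ℕ → ℕ, g = fun w => if w ∈ E0 then elt E1 (cnt w) else b (cnt w) + c w :=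
    ⟨_, rfl⟩
  have hg1 : ∀ w ∈ E0, g w = elt E1 (cnt w) := fun w hw => by rw [hg]; exact if_pos hw
  have hg2 : ∀ w, w ∉ E0 → g w = b (cnt w) + c w := fun w hw => by rw [hg]; exact if_neg hw
  have hgm : StrictMonoOn g (W : Set ℕ) := by
    intro w hw w' hw' hww
    have a1 := hcm w w' hww.le
    have a2 := hc1 w hw
    have a3 := hc1 w' hw'
    have a4 := hc2 w
    have a5 := hc3 w w' hw' hww
    have a6 := hcle w
    have a7 := hcle w'
    by_cases h1 : w ∈ E0
    · have h2 := hcs w h1 w' hww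
      rw [hg1 w h1]
      by_cases h3 : w' ∈ E0
      · rw [hg1 w' h3]
        have h4 := hst (cnt w) (cnt w') (by omega) (hclt w' h3)
        omega
      · rw [hg2 w' h3]
        have h4 := hb2 (cnt w) (cnt w') (by omega) a7
        omega
    · rw [hg2 w h1]
      by_cases h3 : w' ∈ E0
      · rw [hg1 w' h3]
        have h4 := hclt w' h3
        have h5 := hb1 (cnt w') h4
        rcases Nat.lt_or_ge (cnt w) (cnt w') with h6 | h6
        · have h7 := hb3 (cnt w) (cnt w') h6 a7
          omega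
        · have h7 : cnt w = cnt w' := by omega
          rw [h7]
          omega
      · rw [hg2 w' h3]
        rcases Nat.lt_or_ge (cnt w) (cnt w') with h6 | h6
        · have h7 := hb3 (cnt w) (cnt w') h6 a7
          omega
        · have h7 : cnt w = cnt w' := by omega
          rw [h7]
          omega
  have hgN : ∀ w ∈ W, g w < N := by
    intro w hw
    by_cases h1 : w ∈ E0
    · rw [hg1 w h1]
      have := hlt _ (hclt w h1)
      omega
    · rw [hg2 w h1]
      have h2 := hc2 w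
      rcases hb4 _ (hcle w) with h3 | h3
      · omega
      · omega
  have hinv := (hI W g hWN (by omega) hgm hgN ((range j).image u) ((range j').image v)
    (hW ▸ subset_union_left) (hW ▸ subset_union_right)).1 h
  rw [image_image, image_image] at hinv
  have huW : ∀ a < j, u a ∈ W := fun a ha => by
    rw [hW]
    exact mem_union_left _ (mem_image.2 ⟨a, mem_range.2 ha, rfl⟩)
  have hvW : ∀ a < j', v a ∈ W := fun a ha => by
    rw [hW]
    exact mem_union_right _ (mem_image.2 ⟨a, mem_range.2 ha, rfl⟩)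
  have e1 : χ ((range j).image (g ∘ u)) = χ ((range j).image x) := by
    apply same χ N R hI j (by omega) (by omega) (g ∘ u) x _ hx (fun a ha => hgN _ (huW a ha))
      (fun a ha => by have := (hxs a ha).2.2; omega)
    · intro a ha
      have haj : a < j := mem_range.1 (ess_sub χ j ha)
      have h1 : u a ∈ E0 := by rw [hE0]; exact mem_image.2 ⟨a, ha, rfl⟩
      have h2 : x a ∈ E1 := by rw [hE1]; exact mem_image.2 ⟨a, ha, rfl⟩
      have h3 : cnt (u a) = Nat.count (fun z => z ∈ E1) (x a) := by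
        simp only [hcnt]
        rw [hE0, hE1]
        rw [count_img j u hu _ (ess_sub χ j) a haj, count_img j x hx _ (ess_sub χ j) a haj]
      show g (u a) = x a
      rw [hg1 _ h1, h3, elt_count E1 _ h2]
    · intro a ha b hb hab
      exact hgm (huW a ha) (huW b hb) (hu ha hb hab)
  have e2 : χ ((range j').image (g ∘ v)) = χ ((range j').image y) := by
    apply same χ N R hI j' (by omega) (by omega) (g ∘ v) y _ hy (fun a ha => hgN _ (hvW a ha))
      (fun a ha => by have := (hys a ha).2.2; omega)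
    · intro a ha
      have haj : a < j' := mem_range.1 (ess_sub χ j' ha)
      have h1 : v a ∈ E0 := by rw [hE0']; exact mem_image.2 ⟨a, ha, rfl⟩
      have h2 : y a ∈ E1 := by rw [hE1']; exact mem_image.2 ⟨a, ha, rfl⟩
      have h3 : cnt (v a) = Nat.count (fun z => z ∈ E1) (y a) := by
        simp only [hcnt]
        rw [hE0', hE1']
        rw [count_img j' v hv _ (ess_sub χ j') a haj, count_img j' y hy _ (ess_sub χ j') a haj]
      show g (v a) = y a
      rw [hg1 _ h1, h3, elt_count E1 _ h2]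
    · intro a ha b hb hab
      exact hgm (hvW a ha) (hvW b hb) (hv ha hb hab)
  rw [← e1, ← e2]
  exact hinv

theorem ground (K : ℕ) (χ : Finset ℕ → C) (hI : Inv χ ((2 * K + 4) * (K + 2)) (2 * K + 1)) :
    Canonical χ ((range K).image (fun i => (2 * K + 4) * (i + 1))) := by
  classical
  obtain ⟨L, hL⟩ : ∃ L, L = 2 * K + 4 := ⟨_, rfl⟩
  obtain ⟨N, hN⟩ : ∃ N, N = (2 * K + 4) * (K + 2) := ⟨_, rfl⟩
  obtain ⟨T, hT⟩ : ∃ T, T = (range K).image (fun i => (2 * K + 4) * (i + 1)) := ⟨_, rfl⟩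
  rw [← hN] at hI
  rw [← hT]
  have hRN : 2 * K + 1 ≤ N := by
    rw [hN]
    nlinarith
  have hTs : ∀ x ∈ T, Sp L N x := by
    intro x hx
    rw [hT] at hx
    obtain ⟨i, hi, rfl⟩ := mem_image.1 hx
    rw [mem_range] at hi
    rw [hL]
    refine ⟨Dvd.intro _ rfl, ?_, ?_⟩
    · show 1 ≤ (2 * K + 4) * (i + 1)
      nlinarith
    · show (2 * K + 4) * (i + 1) + (2 * K + 4) < N
      rw [hN]
      have h1 : (2 * K + 4) * (i + 1) ≤ (2 * K + 4) * K := Nat.mul_le_mul_left _ hi
      nlinarith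
  have hTc : ∀ Q, Q ⊆ T → Q.card ≤ K := by
    intro Q hQ
    refine (card_le_card hQ).trans ?_
    rw [hT]
    exact card_image_le.trans (by rw [card_range])
  have hQs : ∀ Q, Q ⊆ T → ∀ a < Q.card, Sp L N (elt Q a) := fun Q hQ a ha => hTs _ (hQ (elt_mem Q a ha))
  refine ⟨ess χ, fun j j' => ∃ Q Q' : Finset ℕ, Q ⊆ T ∧ Q' ⊆ T ∧ Q.card = j ∧ Q'.card = j' ∧ χ Q = χ Q',
    ess_sub χ, fun Q Q' hQ hQ' => ⟨fun h => ⟨⟨Q, Q', hQ, hQ', rfl, rfl, h⟩, ?_⟩, ?_⟩⟩
  · have h1 : χ ((range Q.card).image (elt Q)) = χ ((range Q'.card).image (elt Q')) := by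
      rw [img_elt, img_elt, h]
    have h2 := hTc Q hQ
    have h3 := hTc Q' hQ'
    unfold kernel
    ext z
    simp only [mem_image]
    constructor
    · rintro ⟨i, hi, rfl⟩
      obtain ⟨l, hl, h4⟩ := kernel_eq χ N (2 * K + 1) L hI (by omega) Q.card Q'.card (by omega) hRN
        (elt Q) (elt Q') (elt_smono Q) (elt_smono Q') (hQs Q hQ) (hQs Q' hQ') h1 i hi
      exact ⟨l, hl, h4.symm⟩
    · rintro ⟨i, hi, rfl⟩
      obtain ⟨l, hl, h4⟩ := kernel_eq χ N (2 * K + 1) L hI (by omega) Q'.card Q.card (by omega) hRN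
        (elt Q') (elt Q) (elt_smono Q') (elt_smono Q) (hQs Q' hQ') (hQs Q hQ) h1.symm i hi
      exact ⟨l, hl, h4.symm⟩
  · rintro ⟨⟨P, P', hP, hP', hc, hc', h⟩, hk⟩
    have h2 := hTc Q hQ
    have h3 := hTc Q' hQ'
    have h1 : χ ((range Q.card).image (elt P)) = χ ((range Q'.card).image (elt P')) := by
      rw [← hc, ← hc', img_elt, img_elt, h]
    have := cross χ N (2 * K + 1) L hI (by omega) (by omega) Q.card Q'.card (by omega) hRN
      (elt P) (elt P') (elt Q) (elt Q') (hc ▸ elt_smono P) (hc' ▸ elt_smono P') (elt_smono Q)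
      (elt_smono Q') (fun a ha => hQs P hP a (by omega)) (fun a ha => hQs P' hP' a (by omega))
      (hQs Q hQ) (hQs Q' hQ') h1 hk
    rwa [img_elt, img_elt] at this

/-- transport along an increasing map -/
theorem Canonical.image {χ : Finset ℕ → C} {T : Finset ℕ} {N : ℕ} {e : ℕ → ℕ}
    (he : StrictMonoOn e (Set.Iio N)) (hT : T ⊆ range N) (h : Canonical (fun Q => χ (Q.image e)) T) :
    Canonical χ (T.image e) := by
  classical
  obtain ⟨I, E, h1, h2⟩ := h
  refine ⟨I, E, h1, fun Q Q' hQ hQ' => ?_⟩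
  have key : ∀ Q : Finset ℕ, Q ⊆ T.image e → ∃ P : Finset ℕ, P ⊆ T ∧ Q = P.image e ∧ Q.card = P.card ∧
      kernel I Q = (kernel I P).image e ∧ kernel I P ⊆ T := by
    intro Q hQ
    have hP : T.filter (fun t => e t ∈ Q) ⊆ T := filter_subset _ _
    have hQP : Q = (T.filter (fun t => e t ∈ Q)).image e := by
      ext x
      simp only [mem_image, mem_filter]
      constructor
      · intro hx
        obtain ⟨t, ht, rfl⟩ := mem_image.1 (hQ hx)
        exact ⟨t, ⟨ht, hx⟩, rfl⟩
      · rintro ⟨t, ⟨_, ht⟩, rfl⟩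
        exact ht
    obtain ⟨P, hPdef⟩ : ∃ P, P = T.filter (fun t => e t ∈ Q) := ⟨_, rfl⟩
    rw [← hPdef] at hP hQP
    have hPN : ∀ p ∈ P, p < N := fun p hp => mem_range.1 (hT (hP hp))
    have hcard : Q.card = P.card := by
      conv_lhs => rw [hQP]
      exact card_img N e he P (hP.trans hT)
    have hem : StrictMonoOn (fun i => e (elt P i)) (Set.Iio P.card) := by
      intro a ha b hb hab
      exact he (hPN _ (elt_mem P a ha)) (hPN _ (elt_mem P b hb)) (elt_lt P a b hab hb)
    have hQe : Q = (range P.card).image (fun i => e (elt P i)) := by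
      rw [hQP]
      conv_lhs => rw [← img_elt P]
      rw [image_image]
      rfl
    have helt : ∀ i < P.card, elt Q i = e (elt P i) := by
      intro i hi
      rw [hQe]
      exact elt_img _ _ hem i hi
    refine ⟨P, hP, hQP, hcard, ?_, ?_⟩
    · unfold kernel
      rw [hcard, image_image]
      apply img_congr
      intro a ha
      exact helt a (mem_range.1 (h1 _ ha))
    · intro z hz
      unfold kernel at hz
      obtain ⟨i, hi, rfl⟩ := mem_image.1 hz
      exact hP (elt_mem P i (mem_range.1 (h1 _ hi)))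
  obtain ⟨P, hP, hPQ, hPc, hPk, hPs⟩ := key Q hQ
  obtain ⟨P', hP', hPQ', hPc', hPk', hPs'⟩ := key Q' hQ'
  have h3 := h2 P P' hP hP'
  rw [hPk, hPk', hPc, hPc']
  conv_lhs => rw [hPQ, hPQ']
  rw [h3]
  constructor
  · rintro ⟨h4, h5⟩
    exact ⟨h4, by rw [h5]⟩
  · rintro ⟨h4, h5⟩
    refine ⟨h4, ?_⟩
    have hinj : ∀ A B : Finset ℕ, A ⊆ T → B ⊆ T → A.image e = B.image e → A ⊆ B := by
      intro A B hA hB hAB a ha
      have h6 : e a ∈ B.image e := by
        rw [← hAB]
        exact mem_image.2 ⟨a, ha, rfl⟩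
      obtain ⟨b, hb, h7⟩ := mem_image.1 h6
      have h8 := he.injOn (Set.mem_Iio.2 (mem_range.1 (hT (hB hb))))
        (Set.mem_Iio.2 (mem_range.1 (hT (hA ha)))) h7
      rwa [← h8]
    exact Subset.antisymm (hinj _ _ hPs hPs' h5) (hinj _ _ hPs' hPs h5.symm)

/-- **Finite canonical Ramsey theorem**, all sizes at once. -/
theorem canon (K : ℕ) : ∃ M : ℕ, ∀ S : Finset ℕ, M ≤ S.card → ∀ (C : Type) (χ : Finset ℕ → C),
    ∃ T ⊆ S, T.card = K ∧ Canonical χ T := by
  classical
  obtain ⟨M, hM⟩ := exists_inv ((2 * K + 4) * (K + 2)) (2 * K + 1)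
  refine ⟨M, fun S hS C χ => ?_⟩
  obtain ⟨T, hTS, hTc, hT⟩ := hM S hS C χ
  have h1 := ground K (fun Q => χ (Q.image (elt T))) hT
  have hTm : StrictMonoOn (elt T) (Set.Iio ((2 * K + 4) * (K + 2))) := hTc ▸ elt_smono T
  have hsub : (range K).image (fun i => (2 * K + 4) * (i + 1)) ⊆ range ((2 * K + 4) * (K + 2)) := by
    intro x hx
    obtain ⟨i, hi, rfl⟩ := mem_image.1 hx
    rw [mem_range] at hi ⊢
    show (2 * K + 4) * (i + 1) < (2 * K + 4) * (K + 2)
    exact Nat.mul_lt_mul_of_pos_left (by omega) (by omega)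
  refine ⟨((range K).image (fun i => (2 * K + 4) * (i + 1))).image (elt T), ?_, ?_, h1.image hTm hsub⟩
  · intro x hx
    obtain ⟨y, hy, rfl⟩ := mem_image.1 hx
    exact hTS (elt_mem T y (by rw [hTc]; exact mem_range.1 (hsub hy)))
  · rw [card_img _ _ hTm _ hsub, card_image_of_injective, card_range]
    intro a b hab
    have hab' : (2 * K + 4) * (a + 1) = (2 * K + 4) * (b + 1) := hab
    have := Nat.eq_of_mul_eq_mul_left (by omega) hab'
    omega

/-- finitely many colourings at once -/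
theorem canon_multi (L : ℕ) : ∀ K : ℕ, ∃ M : ℕ, ∀ S : Finset ℕ, M ≤ S.card → ∀ (C : Type)
    (χ : Fin L → Finset ℕ → C), ∃ T ⊆ S, T.card = K ∧ ∀ l, Canonical (χ l) T := by
  induction L with
  | zero =>
    intro K
    refine ⟨K, fun S hS C χ => ?_⟩
    obtain ⟨T, hT, hTc⟩ := exists_subset_card_eq hS
    exact ⟨T, hT, hTc, fun l => l.elim0⟩
  | succ L ih =>
    intro K
    obtain ⟨M1, hM1⟩ := canon K
    obtain ⟨M2, hM2⟩ := ih M1
    refine ⟨M2, fun S hS C χ => ?_⟩
    obtain ⟨T1, h1, h2, h3⟩ := hM2 S hS C (fun l => χ l.castSucc)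
    obtain ⟨T2, h4, h5, h6⟩ := hM1 T1 h2.ge C (χ (Fin.last L))
    refine ⟨T2, h4.trans h1, h5, fun l => ?_⟩
    refine Fin.lastCases h6 (fun l => (h3 l).mono h4) l

end Pool.Agent.Y635.CR
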