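import Pool.Agent.H362R2.RQ.Fin
import Pool.Agent.H362R2.RQ.Place
import Pool.Agent.H312R2.RG.C3
import Pool.Agent.W126.Place3
import Pool.Agent.Y635.CR.Canon3

/-!
# Canonical Ramsey theorem for blocks of consecutive primes at all scales up to the record scale

helper635
-/

set_option autoImplicit false

namespace Pool.Agent.Y635.CR

open Finset Filter

open Pool.Agent.H256R2.SC (ff)
open Pool.Agent.H312R2.RG.C3 (ff_tendsto ff_lower ff_small)
open Pool.Agent.H378R2 (yy)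
open Pool.Agent.H362R2.RQ
open Pool.Agent.W126.PrimeShort (exists_prime_short)
open Pool.Agent.W126.Place3 (ev_place)

theorem rpow_ev (N : ℕ) : ∀ᶠ X : ℝ in atTop, (N : ℝ) * X ^ (7 / 8 : ℝ) ≤ X ^ (9 / 10 : ℝ) := by
  have h1 : Tendsto (fun X : ℝ => X ^ (1 / 40 : ℝ)) atTop atTop := tendsto_rpow_atTop (by norm_num)
  filter_upwards [h1.eventually_ge_atTop (N : ℝ), eventually_gt_atTop (0 : ℝ)] with X h2 h3
  have h4 : X ^ (9 / 10 : ℝ) = X ^ (1 / 40 : ℝ) * X ^ (7 / 8 : ℝ) := by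
    rw [← Real.rpow_add h3]; norm_num
  rw [h4]
  exact mul_le_mul_of_nonneg_right h2 (Real.rpow_nonneg h3.le _)

/-- the blocks of consecutive primes with a given exact pattern -/
def Occ (k q a K : ℕ) (c X : ℝ) (u : Fin (k + 1) → ℕ) : Set ℕ :=
  {n | X < (Nat.nth Nat.Prime n : ℝ) ∧ (Nat.nth Nat.Prime (n + k) : ℝ) ≤ 4 * X ∧
    (∀ i ≤ k, Nat.nth Nat.Prime (n + i) ≡ a [MOD q]) ∧
    {p' : ℕ | p'.Prime ∧ |(p' : ℝ) - Nat.nth Nat.Prime n| ≤ c * ff X}.ncard ≤ K ∧
    ∃ N, ∀ i : Fin (k + 1), Nat.nth Nat.Prime (n + i) = N + u i}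

theorem occ_finite (k q a K : ℕ) (c X : ℝ) (u : Fin (k + 1) → ℕ) : (Occ k q a K c X u).Finite := by
  refine (Set.finite_Iic ⌊4 * X⌋₊).subset ?_
  rintro n ⟨-, h2, -⟩
  refine Nat.le_floor (le_trans ?_ h2)
  have h3 : n + k ≤ Nat.nth Nat.Prime (n + k) :=
    (Nat.nth_strictMono Nat.infinite_setOf_prime).le_apply
  exact_mod_cast (Nat.le_add_right n k).trans h3

/-- among `K` exact positions in the middle of a record window some `k + 1` are realised often -/
theorem realise (k : ℕ) : ∃ K : ℕ, ∃ c0 : ℝ, 0 < c0 ∧ ∀ q a : ℕ, Squarefree q →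
    ∀ᶠ X : ℝ in atTop, ∀ t : Fin K → ℕ, StrictMono t →
    (∀ j, (t j).Prime ∧ t j ≡ a [MOD q] ∧ c0 * ff X / 2 ≤ t j ∧ (t j : ℝ) ≤ 3 / 4 * (c0 * ff X)) →
    ∃ j : Fin (k + 1) → Fin K, StrictMono j ∧
      X ^ (7 / 8 : ℝ) ≤ ((Occ k q a K (c0 / 16) X (fun i => t (j i))).ncard : ℝ) := by
  classical
  obtain ⟨η, hη, hst⟩ := stRQ
  set M : ℕ := ⌈((k : ℝ) + 1) / η⌉₊ + 1 with hM
  have hM0 : 0 < M := by omega
  have hηM : (k : ℝ) + 1 ≤ η * M := by
    have h1 := Nat.le_ceil (((k : ℝ) + 1) / η)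
    rw [div_le_iff₀ hη] at h1
    rw [hM]; push_cast
    nlinarith
  obtain ⟨K, hMK, c0, hc0, hz⟩ := hst M hM0
  refine ⟨K, c0, hc0, fun q a hqsf => ?_⟩
  have hq0 : 0 < q := Nat.pos_of_ne_zero hqsf.ne_zero
  obtain ⟨X1, hX1⟩ := hz q
  have hffl : ∀ᶠ X : ℝ in atTop, Real.log X ≤ c0 * ff X / 2 := by
    have hLL : Tendsto (fun X : ℝ => Real.log (Real.log X)) atTop atTop :=
      Real.tendsto_log_atTop.comp Real.tendsto_log_atTop
    filter_upwards [ff_lower, hLL.eventually_ge_atTop (2 / c0),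
      Real.tendsto_log_atTop.eventually_ge_atTop 1] with X h1 h2 h3
    rw [div_le_iff₀ hc0] at h2
    have h4 : Real.log X * 2 ≤ Real.log X * (Real.log (Real.log X) * c0) :=
      mul_le_mul_of_nonneg_left h2 (by linarith)
    have h5 : Real.log X * Real.log (Real.log X) * c0 ≤ ff X * c0 := mul_le_mul_of_nonneg_right h1 hc0.le
    linarith
  filter_upwards [eventually_ge_atTop X1, Real.tendsto_log_atTop.eventually_ge_atTop 1, hffl,
    ff_small c0 hc0, rpow_ev (Fintype.card (Fin (k + 1) → Fin K)), eventually_gt_atTop (0 : ℝ),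
    ff_tendsto.eventually_ge_atTop 1]
    with X hXX1 hl1 hfl hsm hrp hX0 hff1
  intro t htmono ht
  have hF0 : 0 < c0 * ff X := by positivity
  have htB : ∀ j, (t j : ℝ) ≤ c0 * ff X := fun j => by
    have := (ht j).2.2.2
    linarith
  by_contra hcon
  push Not at hcon
  set V : (Fin (k + 1) → Fin K) → Set ℕ := fun j => Occ k q a K (c0 / 16) X (fun i => t (j i)) with hV
  have hVfin : ∀ j, (V j).Finite := fun j => occ_finite _ _ _ _ _ _ _
  set bad : Finset ℕ := (univ.filter (fun j : Fin (k + 1) → Fin K => StrictMono j)).biUnion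
    (fun j => (hVfin j).toFinset.image (fun n₀ => Nat.nth Nat.Prime n₀ - t (j 0))) with hbad
  have hbadc : (bad.card : ℝ) ≤ X ^ (9 / 10 : ℝ) := by
    have h1 : (bad.card : ℝ) ≤ ∑ j ∈ univ.filter (fun j : Fin (k + 1) → Fin K => StrictMono j),
        X ^ (7 / 8 : ℝ) := by
      have h2 : bad.card ≤ ∑ j ∈ univ.filter (fun j : Fin (k + 1) → Fin K => StrictMono j),
          ((hVfin j).toFinset.image (fun n₀ => Nat.nth Nat.Prime n₀ - t (j 0))).card :=
        card_biUnion_le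
      have h3 : (bad.card : ℝ) ≤ ∑ j ∈ univ.filter (fun j : Fin (k + 1) → Fin K => StrictMono j),
          (((hVfin j).toFinset.image (fun n₀ => Nat.nth Nat.Prime n₀ - t (j 0))).card : ℝ) := by
        exact_mod_cast h2
      refine h3.trans (Finset.sum_le_sum fun j hj => ?_)
      have h4 : (((hVfin j).toFinset.image (fun n₀ => Nat.nth Nat.Prime n₀ - t (j 0))).card : ℝ) ≤
          ((V j).ncard : ℝ) := by
        rw [Set.ncard_eq_toFinset_card _ (hVfin j)]
        exact_mod_cast card_image_le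
      exact h4.trans (hcon j (mem_filter.1 hj).2).le
    rw [Finset.sum_const, nsmul_eq_mul] at h1
    refine h1.trans (le_trans ?_ hrp)
    apply mul_le_mul_of_nonneg_right _ (Real.rpow_nonneg hX0.le _)
    exact_mod_cast (card_filter_le _ _)
  obtain ⟨n, hn1, hn2, hnb, ⟨D, hD1, hD2⟩, hs, hzn⟩ := hX1 X hXX1 t htmono.injective
    (fun j => ⟨(ht j).1, by
      have h1 : (yy X : ℝ) ≤ Real.log X / 1000 := Nat.floor_le (by positivity)
      have h2 : (yy X : ℝ) < t j := by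
        have := (ht j).2.2.1
        linarith
      exact_mod_cast h2, htB j⟩) (cmod K M hM0) (fib_cmod K M hM0 hMK) bad hbadc
  have hqn : q ∣ n := dvd_of_primes q n hqsf (fun p hp hpq => hzn p hp (Nat.le_of_dvd hq0 hpq))
  have hcard : k + 1 ≤ ((univ : Finset (Fin K)).filter (fun j => (n + t j).Prime)).card := by
    have h1 : D ⊆ ((univ : Finset (Fin K)).filter (fun j => (n + t j).Prime)).image (cmod K M hM0) := by
      intro d hd
      obtain ⟨j, hj1, hj2⟩ := hD2 d hd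
      exact mem_image.2 ⟨j, mem_filter.2 ⟨mem_univ _, hj2⟩, hj1⟩
    have h2 := (card_le_card h1).trans card_image_le
    have h3 : ((k : ℝ) + 1) ≤ D.card := hηM.trans hD1
    have h4 : k + 1 ≤ D.card := by exact_mod_cast h3
    omega
  obtain ⟨j, hj, n₀, hnth⟩ := Pool.Agent.H312R2.RG.C3.consecutive t htmono n (c0 * ff X) htB hcard hs
  have hp0 : Nat.nth Nat.Prime n₀ = n + t (j 0) := by
    have := hnth 0
    simpa using this
  apply hnb
  rw [hbad, mem_biUnion]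
  refine ⟨j, mem_filter.2 ⟨mem_univ _, hj⟩, mem_image.2 ⟨n₀, ?_, by rw [hp0]; omega⟩⟩
  rw [Set.Finite.mem_toFinset]
  refine ⟨?_, ?_, ?_, ?_, n, hnth⟩
  · rw [hp0]; push_cast
    have : (0 : ℝ) ≤ t (j 0) := Nat.cast_nonneg _
    linarith
  · have h1 := hnth (Fin.last k)
    rw [Fin.val_last] at h1
    rw [h1]; push_cast
    have h2 := htB (j (Fin.last k))
    linarith
  · intro i hi
    have h0 := hnth ⟨i, by omega⟩
    simp only at h0
    rw [h0]
    have h1 : n + t (j ⟨i, by omega⟩) ≡ 0 + a [MOD q] :=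
      Nat.ModEq.add ((Nat.modEq_zero_iff_dvd).2 hqn) (ht _).2.1
    simpa using h1
  · -- isolation
    have hsub : {p' : ℕ | p'.Prime ∧ |(p' : ℝ) - Nat.nth Nat.Prime n₀| ≤ c0 / 16 * ff X} ⊆
        (((univ : Finset (Fin K)).image (fun j => n + t j) : Finset ℕ) : Set ℕ) := by
      rintro p' ⟨hp', hd⟩
      rw [hp0, abs_le] at hd
      push_cast at hd
      have h1 := (ht (j 0)).2.2.1
      have h2 := (ht (j 0)).2.2.2
      have h3 : (n : ℝ) ≤ p' := by linarith [hd.1]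
      have h4 : n ≤ p' := by exact_mod_cast h3
      obtain ⟨s, rfl⟩ := Nat.exists_eq_add_of_le h4
      have h5 : (s : ℝ) ≤ c0 * ff X := by
        have := hd.2
        push_cast at this
        linarith
      obtain ⟨i, hi⟩ := hs s h5 hp'
      rw [coe_image]
      exact ⟨i, by simp, by rw [hi]⟩
    refine (Set.ncard_le_ncard hsub (Finset.finite_toSet _)).trans ?_
    rw [Set.ncard_coe_finset]
    refine card_image_le.trans ?_
    rw [card_univ, Fintype.card_fin]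

/-- primes at geometric positions in the middle of a record window -/
theorem positions (M R : ℕ) (hR : 4 ≤ R) (c0 : ℝ) (hc0 : 0 < c0) (q a : ℕ) (hq : 0 < q)
    (ha : a.Coprime q) : ∀ᶠ X : ℝ in atTop, ∀ H : ℝ, Real.log X ≤ H → H ≤ c0 / 16 * ff X →
    ∃ s : Fin M → ℕ, (∀ j : Fin M, (s j).Prime ∧ s j ≡ a [MOD q] ∧ c0 * ff X / 2 ≤ s j ∧
      (s j : ℝ) ≤ 3 / 4 * (c0 * ff X)) ∧
      ∀ j : Fin M, c0 * ff X / 2 + H / (2 * (R : ℝ) ^ (j : ℕ)) < s j ∧
        (s j : ℝ) ≤ c0 * ff X / 2 + H / (2 * (R : ℝ) ^ (j : ℕ)) + H / (8 * (R : ℝ) ^ M) := by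
  have hR4 : (4 : ℝ) ≤ R := by exact_mod_cast hR
  obtain ⟨Y0, hY0⟩ := Filter.eventually_atTop.1 (exists_prime_short q hq a ha)
  have hτ : 0 < 1 / (R : ℝ) ^ M := by positivity
  have hffl : ∀ᶠ X : ℝ in atTop, Real.log X ≤ c0 * ff X / 2 := by
    have hLL : Tendsto (fun X : ℝ => Real.log (Real.log X)) atTop atTop :=
      Real.tendsto_log_atTop.comp Real.tendsto_log_atTop
    filter_upwards [ff_lower, hLL.eventually_ge_atTop (2 / c0),
      Real.tendsto_log_atTop.eventually_ge_atTop 1] with X h1 h2 h3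
    rw [div_le_iff₀ hc0] at h2
    have h4 : Real.log X * 2 ≤ Real.log X * (Real.log (Real.log X) * c0) :=
      mul_le_mul_of_nonneg_left h2 (by linarith)
    have h5 : Real.log X * Real.log (Real.log X) * c0 ≤ ff X * c0 := mul_le_mul_of_nonneg_right h1 hc0.le
    linarith
  filter_upwards [ev_place 1 Y0 c0 (1 / (R : ℝ) ^ M) hc0 hτ, hffl, ff_tendsto.eventually_ge_atTop 1]
    with X hX hfl hff1
  obtain ⟨e1, e2, e3, e4⟩ := hX
  intro H hH1 hH2
  have hY0n := abs_nonneg Y0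
  have hl : 0 < Real.log X := by linarith
  have hH0 : 0 < H := by linarith
  have hLL : 0 < Real.log (Real.log X) := by linarith
  have hF0 : 0 < c0 * ff X := by positivity
  have hRM : (1 : ℝ) ≤ (R : ℝ) ^ M := one_le_pow₀ (by linarith)
  have hex : ∀ j : Fin M, ∃ p : ℕ, p.Prime ∧ p ≡ a [MOD q] ∧
      c0 * ff X / 2 + H / (2 * (R : ℝ) ^ (j : ℕ)) < p ∧
      (p : ℝ) ≤ c0 * ff X / 2 + H / (2 * (R : ℝ) ^ (j : ℕ)) + H / (8 * (R : ℝ) ^ M) := by
    intro j
    have hRj : (1 : ℝ) ≤ (R : ℝ) ^ (j : ℕ) := one_le_pow₀ (by linarith)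
    have hHj : 0 < H / (2 * (R : ℝ) ^ (j : ℕ)) := by positivity
    have hHj2 : H / (2 * (R : ℝ) ^ (j : ℕ)) ≤ H := div_le_self hH0.le (by linarith)
    obtain ⟨y, hy⟩ : ∃ y, y = c0 * ff X / 2 + H / (2 * (R : ℝ) ^ (j : ℕ)) := ⟨_, rfl⟩
    have hyl : Real.log X ≤ y := by rw [hy]; linarith
    have hyu : y ≤ c0 * ff X := by rw [hy]; linarith
    have hYy : Y0 ≤ y := by
      have := le_abs_self Y0
      linarith
    obtain ⟨p, hp, hpa, h1, h2⟩ := hY0 y hYy
    refine ⟨p, hp, hpa, hy ▸ h1, ?_⟩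
    rw [← hy]
    refine h2.trans (add_le_add_right ?_ _)
    have hly : Real.log (Real.log X) ≤ Real.log y := Real.log_le_log hl hyl
    have hly0 : 0 < Real.log y := by linarith
    have h3 : (Real.log (Real.log X)) ^ 3 ≤ (Real.log y) ^ 3 := pow_le_pow_left₀ hLL.le hly 3
    rw [div_le_iff₀ (by positivity)]
    have h4 : 8 * c0 * ff X * ((1 : ℕ) : ℝ) ≤ 1 / (R : ℝ) ^ M * Real.log X * (Real.log (Real.log X)) ^ 3 := e4
    have h5 : 1 / (R : ℝ) ^ M * Real.log X * (Real.log (Real.log X)) ^ 3 ≤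
        1 / (R : ℝ) ^ M * H * (Real.log y) ^ 3 := by
      apply mul_le_mul _ h3 (by positivity) (by positivity)
      exact mul_le_mul_of_nonneg_left hH1 (by positivity)
    have h6 : H / (8 * (R : ℝ) ^ M) * (Real.log y) ^ 3 = 1 / (R : ℝ) ^ M * H * (Real.log y) ^ 3 / 8 := by
      field_simp
    rw [h6]
    push_cast at h4
    linarith
  choose s hs1 hs2 hs3 hs4 using hex
  refine ⟨s, fun j => ⟨hs1 j, hs2 j, ?_, ?_⟩, fun j => ⟨hs3 j, hs4 j⟩⟩
  · have h1 : 0 < H / (2 * (R : ℝ) ^ (j : ℕ)) := by positivity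
    have := hs3 j
    linarith
  · have hRj : (1 : ℝ) ≤ (R : ℝ) ^ (j : ℕ) := one_le_pow₀ (by linarith)
    have h1 : H / (2 * (R : ℝ) ^ (j : ℕ)) ≤ H := div_le_self hH0.le (by linarith)
    have h2 : H / (8 * (R : ℝ) ^ M) ≤ H := div_le_self hH0.le (by linarith)
    have := hs4 j
    linarith

end Pool.Agent.Y635.CR
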