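import Pool.Agent.Y635.CR.Chains

/-!
# Canonical Ramsey theorem for blocks of consecutive primes: main theorem

helper635
-/

set_option autoImplicit false

namespace Pool.Agent.Y635.CR

open Finset Filter

open Pool.Agent.H256R2.SC (ff)

/-- the block `{p_n, ..., p_(n+k)}` -/
noncomputable def blk (n k : ℕ) : Finset ℕ := (range (k + 1)).image (fun i => Nat.nth Nat.Prime (n + i))

/-- the properties of the blocks -/
def Chn (q a K : ℕ) (A c X H : ℝ) (k n : ℕ) : Prop :=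
  X < (Nat.nth Nat.Prime n : ℝ) ∧ (Nat.nth Nat.Prime (n + k) : ℝ) ≤ 4 * X ∧
    (∀ i ≤ k, Nat.nth Nat.Prime (n + i) ≡ a [MOD q]) ∧
    {p' : ℕ | p'.Prime ∧ |(p' : ℝ) - Nat.nth Nat.Prime n| ≤ c * ff X}.ncard ≤ K ∧
    (Nat.nth Nat.Prime (n + k) : ℝ) - Nat.nth Nat.Prime n ≤ H ∧
    (∀ i < k, c * H ≤ (Nat.nth Nat.Prime (n + i + 1) : ℝ) - Nat.nth Nat.Prime (n + i)) ∧
    (∀ i, i + 1 < k → A * ((Nat.nth Nat.Prime (n + i + 1) : ℝ) - Nat.nth Nat.Prime (n + i)) ≤
      (Nat.nth Nat.Prime (n + i + 2) : ℝ) - Nat.nth Nat.Prime (n + i + 1))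

theorem near_finite (n : ℕ) (B : ℝ) : {p' : ℕ | p'.Prime ∧ |(p' : ℝ) - n| ≤ B}.Finite := by
  refine (Set.finite_Iic ⌊(n : ℝ) + B⌋₊).subset ?_
  rintro p' ⟨-, h⟩
  rw [abs_le] at h
  exact Nat.le_floor (by linarith [h.2])

theorem chn_finite (q a K : ℕ) (A c X H : ℝ) (k : ℕ) (P : ℕ → Prop) :
    {n | Chn q a K A c X H k n ∧ P n}.Finite := by
  refine (Set.finite_Iic ⌊4 * X⌋₊).subset ?_
  rintro n ⟨⟨-, h2, -⟩, -⟩
  refine Nat.le_floor (le_trans ?_ h2)
  have h3 : n + k ≤ Nat.nth Nat.Prime (n + k) :=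
    (Nat.nth_strictMono Nat.infinite_setOf_prime).le_apply
  exact_mod_cast (Nat.le_add_right n k).trans h3

theorem main (k L : ℕ) (A : ℝ) : ∃ K : ℕ, ∃ c : ℝ, 0 < c ∧ ∀ q a : ℕ, Squarefree q → a.Coprime q →
    ∃ X₀ : ℝ, ∀ X : ℝ, X₀ ≤ X → ∀ H : ℝ, Real.log X ≤ H → H ≤ c * ff X →
    ∀ (C : Type) (χ : Fin L → Finset ℕ → C), ∃ U : Finset ℕ, (∀ l, Canonical (χ l) U) ∧
      X ^ (7 / 8 : ℝ) ≤ ({n : ℕ | Chn q a K A c X H k n ∧
        ∃ N, blk n k = U.image (fun u => N + u)}.ncard : ℝ) := by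
  classical
  obtain ⟨K, c0, hc0, hreal⟩ := realise k
  obtain ⟨M, hM⟩ := canon_multi L K
  obtain ⟨A', hA', hAA'⟩ : ∃ A' : ℝ, 0 ≤ A' ∧ A ≤ A' := ⟨max A 0, le_max_right _ _, le_max_left _ _⟩
  obtain ⟨R, hR4, hRA⟩ : ∃ R : ℕ, 4 ≤ R ∧ 2 * A' + 2 ≤ R := by
    refine ⟨⌈2 * A' + 2⌉₊ + 4, by omega, ?_⟩
    push_cast
    linarith [Nat.le_ceil (2 * A' + 2)]
  have hR4' : (4 : ℝ) ≤ R := by exact_mod_cast hR4
  have hR0 : (0 : ℝ) < R := by linarith
  have hRM : (0 : ℝ) < (R : ℝ) ^ M := by positivity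
  refine ⟨K, min (c0 / 16) (1 / (R : ℝ) ^ M), by positivity, fun q a hq ha => ?_⟩
  have hq0 : 0 < q := Nat.pos_of_ne_zero hq.ne_zero
  refine Filter.eventually_atTop.1 ?_
  filter_upwards [hreal q a hq, positions M R hR4 c0 hc0 q a hq0 ha,
    Real.tendsto_log_atTop.eventually_ge_atTop 1,
    Pool.Agent.H312R2.RG.C3.ff_tendsto.eventually_ge_atTop 1] with X h1 h2 hl1 hff1
  intro H hH1 hH2 C χ
  have hff0 : 0 ≤ ff X := by linarith
  have hH0 : 0 < H := by linarith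
  obtain ⟨s, hs1, hs2⟩ := h2 H hH1 (hH2.trans (mul_le_mul_of_nonneg_right (min_le_left _ _) hff0))
  obtain ⟨B, hB⟩ : ∃ B, B = c0 * ff X / 2 := ⟨_, rfl⟩
  obtain ⟨h, hh⟩ : ∃ h : ℕ → ℝ, h = fun i => H / (R : ℝ) ^ i := ⟨_, rfl⟩
  have hh0 : ∀ i, 0 < h i := fun i => by rw [hh]; positivity
  have hhH : ∀ i, h i ≤ H := fun i => by
    rw [hh]
    exact div_le_self hH0.le (one_le_pow₀ (by linarith))
  have hhstep : ∀ i j : ℕ, i < j → h j ≤ h i / R := by
    intro i j hij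
    rw [hh]
    dsimp only
    rw [div_div, ← pow_succ]
    exact div_le_div_of_nonneg_left hH0.le (by positivity) (pow_le_pow_right₀ (by linarith) hij)
  have hs3 : ∀ j : Fin M, B + h j / 2 < s j ∧ (s j : ℝ) ≤ B + h j / 2 + h M / 8 := by
    intro j
    have h3 := hs2 j
    have e1 : H / (2 * (R : ℝ) ^ (j : ℕ)) = h j / 2 := by rw [hh]; field_simp
    have e2 : H / (8 * (R : ℝ) ^ M) = h M / 8 := by rw [hh]; field_simp
    rw [e1, e2, ← hB] at h3
    exact h3
  have hEM : ∀ i : Fin M, h M / 8 ≤ h i / R / 8 := by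
    intro i
    have := hhstep i M i.2
    linarith
  have hlow : ∀ i j : Fin M, i < j → h i / R * (R / 2 - 5 / 8) ≤ (s i : ℝ) - s j := by
    intro i j hij
    have h3 := (hs3 i).1
    have h4 := (hs3 j).2
    have h5 := hhstep i j hij
    have h6 := hEM i
    have h7 : h i / R * (R / 2 - 5 / 8) = h i / 2 - h i / R * (5 / 8) := by field_simp
    rw [h7]
    linarith
  have hsep0 : ∀ i j : Fin M, i < j → H / (R : ℝ) ^ M ≤ (s i : ℝ) - s j := by
    intro i j hij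
    refine le_trans ?_ (hlow i j hij)
    have h3 : H / (R : ℝ) ^ M ≤ h i / R := by
      have := hhstep i M i.2
      rw [hh] at this ⊢
      exact this
    have h4 : 0 < h i / R := div_pos (hh0 i) hR0
    nlinarith
  have hratio0 : ∀ i j l : Fin M, i < j → A' * ((s j : ℝ) - s l) ≤ (s i : ℝ) - s j := by
    intro i j l hij
    refine le_trans ?_ (hlow i j hij)
    have h3 := (hs3 j).2
    have h4 := (hs3 l).1
    have h5 := hhstep i j hij
    have h6 := hEM i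
    have h7 := hh0 l
    have h8 : (s j : ℝ) - s l ≤ h i / R * (5 / 8) := by linarith
    have h9 : 0 < h i / R := div_pos (hh0 i) hR0
    calc A' * ((s j : ℝ) - s l) ≤ A' * (h i / R * (5 / 8)) := mul_le_mul_of_nonneg_left h8 hA'
      _ = h i / R * (5 / 8 * A') := by ring
      _ ≤ _ := mul_le_mul_of_nonneg_left (by linarith) h9.le
  have hdiam0 : ∀ i j : Fin M, (s i : ℝ) - s j ≤ H := by
    intro i j
    have h3 := (hs3 i).2
    have h4 := (hs3 j).1
    have h5 := hhH i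
    have h6 := hhH M
    have h7 := hh0 j
    linarith
  have hpos : ∀ i j : Fin M, i < j → (0 : ℝ) < (s i : ℝ) - s j := fun i j hij =>
    lt_of_lt_of_le (by positivity) (hsep0 i j hij)
  have hsinj : Function.Injective s := by
    intro i j hij
    rcases lt_trichotomy i j with hlt | heq | hlt
    · have := hpos i j hlt
      rw [hij] at this
      linarith
    · exact heq
    · have := hpos j i hlt
      rw [hij] at this
      linarith
  obtain ⟨T, hTS, hTK, hT⟩ := hM (Finset.univ.image s) (by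
    rw [Finset.card_image_of_injective _ hsinj, Finset.card_univ, Fintype.card_fin]) C χ
  have hTmem : ∀ x ∈ T, ∃ i, s i = x := by
    intro x hx
    obtain ⟨i, -, hi⟩ := Finset.mem_image.1 (hTS hx)
    exact ⟨i, hi⟩
  have hsep : ∀ x ∈ T, ∀ y ∈ T, x < y → H / (R : ℝ) ^ M ≤ (y : ℝ) - x := by
    intro x hx y hy hxy
    obtain ⟨i, rfl⟩ := hTmem x hx
    obtain ⟨j, rfl⟩ := hTmem y hy
    have hxy' : (s i : ℝ) < s j := by exact_mod_cast hxy
    rcases lt_trichotomy i j with hlt | heq | hlt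
    · have := hpos i j hlt
      linarith
    · rw [heq] at hxy
      exact absurd hxy (lt_irrefl _)
    · exact hsep0 j i hlt
  have hratio : ∀ x ∈ T, ∀ y ∈ T, ∀ z ∈ T, y < z → A' * ((y : ℝ) - x) ≤ (z : ℝ) - y := by
    intro x hx y hy z hz hyz
    obtain ⟨l, rfl⟩ := hTmem x hx
    obtain ⟨j, rfl⟩ := hTmem y hy
    obtain ⟨i, rfl⟩ := hTmem z hz
    have hyz' : (s j : ℝ) < s i := by exact_mod_cast hyz
    rcases lt_trichotomy i j with hlt | heq | hlt
    · exact hratio0 i j l hlt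
    · rw [heq] at hyz
      exact absurd hyz (lt_irrefl _)
    · have := hpos j i hlt
      linarith
  have hdiam : ∀ x ∈ T, ∀ y ∈ T, (y : ℝ) - x ≤ H := by
    intro x hx y hy
    obtain ⟨i, rfl⟩ := hTmem x hx
    obtain ⟨j, rfl⟩ := hTmem y hy
    exact hdiam0 j i
  obtain ⟨j, hj, hX⟩ := h1 (T.orderEmbOfFin hTK) (T.orderEmbOfFin hTK).strictMono (by
    intro i
    obtain ⟨l, hl⟩ := hTmem _ (T.orderEmbOfFin_mem hTK i)
    rw [← hl]
    exact hs1 l)
  have hmemT : ∀ i, T.orderEmbOfFin hTK (j i) ∈ T := fun i => T.orderEmbOfFin_mem hTK _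
  refine ⟨univ.image (fun i => T.orderEmbOfFin hTK (j i)), fun l => (hT l).mono ?_, hX.trans ?_⟩
  · intro x hx
    obtain ⟨i, -, rfl⟩ := mem_image.1 hx
    exact hmemT i
  · rw [Nat.cast_le]
    refine Set.ncard_le_ncard ?_ (chn_finite _ _ _ _ _ _ _ _ _)
    rintro n ⟨g1, g2, g3, g4, N, hN⟩
    have hNi : ∀ i, (hi : i ≤ k) → Nat.nth Nat.Prime (n + i) = N + T.orderEmbOfFin hTK (j ⟨i, by omega⟩) :=
      fun i hi => hN ⟨i, by omega⟩
    have hlt : ∀ i i' : ℕ, (hi : i < i') → (hi' : i' ≤ k) →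
        T.orderEmbOfFin hTK (j ⟨i, by omega⟩) < T.orderEmbOfFin hTK (j ⟨i', by omega⟩) :=
      fun i i' hi hi' => (T.orderEmbOfFin hTK).strictMono (hj (by rw [Fin.lt_def]; exact hi))
    refine ⟨⟨g1, g2, g3, ?_, ?_, ?_, ?_⟩, N, ?_⟩
    · refine (Set.ncard_le_ncard ?_ (near_finite _ _)).trans g4
      rintro p' ⟨hp', hd⟩
      exact ⟨hp', hd.trans (mul_le_mul_of_nonneg_right (min_le_left _ _) hff0)⟩
    · have e0 := hNi 0 (Nat.zero_le _)
      rw [add_zero] at e0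
      rw [hNi k le_rfl, e0]
      push_cast
      have := hdiam _ (hmemT ⟨0, by omega⟩) _ (hmemT ⟨k, by omega⟩)
      linarith
    · intro i hi
      rw [add_assoc n i 1, hNi i hi.le, hNi (i + 1) hi]
      push_cast
      have h3 := hsep _ (hmemT ⟨i, by omega⟩) _ (hmemT ⟨i + 1, by omega⟩) (hlt i (i + 1) (by omega) hi)
      have h4 : min (c0 / 16) (1 / (R : ℝ) ^ M) * H ≤ H / (R : ℝ) ^ M := by
        calc min (c0 / 16) (1 / (R : ℝ) ^ M) * H ≤ 1 / (R : ℝ) ^ M * H :=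
              mul_le_mul_of_nonneg_right (min_le_right _ _) hH0.le
          _ = H / (R : ℝ) ^ M := by ring
      linarith
    · intro i hi
      rw [add_assoc n i 1, add_assoc n i 2, hNi i (by omega), hNi (i + 1) (by omega),
        hNi (i + 2) (by omega)]
      push_cast
      have h3 := hratio _ (hmemT ⟨i, by omega⟩) _ (hmemT ⟨i + 1, by omega⟩) _ (hmemT ⟨i + 2, by omega⟩)
        (hlt (i + 1) (i + 2) (by omega) (by omega))
      have h4 : (T.orderEmbOfFin hTK (j ⟨i, by omega⟩) : ℝ) ≤ T.orderEmbOfFin hTK (j ⟨i + 1, by omega⟩) := by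
        exact_mod_cast (hlt i (i + 1) (by omega) (by omega)).le
      have h5 : A * ((T.orderEmbOfFin hTK (j ⟨i + 1, by omega⟩) : ℝ) - T.orderEmbOfFin hTK (j ⟨i, by omega⟩)) ≤
          A' * ((T.orderEmbOfFin hTK (j ⟨i + 1, by omega⟩) : ℝ) - T.orderEmbOfFin hTK (j ⟨i, by omega⟩)) :=
        mul_le_mul_of_nonneg_right hAA' (by linarith)
      have h6 : (N : ℝ) + (T.orderEmbOfFin hTK (j ⟨i + 1, by omega⟩) : ℝ) -
          (N + (T.orderEmbOfFin hTK (j ⟨i, by omega⟩) : ℝ)) =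
          (T.orderEmbOfFin hTK (j ⟨i + 1, by omega⟩) : ℝ) - T.orderEmbOfFin hTK (j ⟨i, by omega⟩) := by ring
      rw [h6]
      linarith
    · unfold blk
      ext x
      simp only [mem_image, mem_range, mem_univ, true_and]
      constructor
      · rintro ⟨i, hi, rfl⟩
        exact ⟨_, ⟨⟨i, hi⟩, rfl⟩, (hNi i (by omega)).symm⟩
      · rintro ⟨_, ⟨i, rfl⟩, rfl⟩
        exact ⟨i, i.2, hNi i (by omega)⟩

/-- the blocks are canonical for invariant colourings -/
theorem canonical_translate {C : Type} (χ : Finset ℕ → C)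
    (hχ : ∀ (Q : Finset ℕ) (b : ℕ), χ (Q.image (fun x => b + x)) = χ Q) (U : Finset ℕ)
    (hU : Canonical χ U) (N : ℕ) : Canonical χ (U.image (fun u => N + u)) := by
  classical
  have h1 : Canonical (fun Q => χ (Q.image (fun u => N + u))) U := by
    have : (fun Q : Finset ℕ => χ (Q.image (fun u => N + u))) = χ := by
      funext Q
      exact hχ Q N
    rw [this]
    exact hU
  refine Canonical.image (N := U.sup id + 1) (e := fun u => N + u) ?_ ?_ h1
  · intro x _ y _ hxy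
    exact Nat.add_lt_add_left hxy N
  · intro x hx
    rw [mem_range]
    have : id x ≤ U.sup id := le_sup hx
    simp only [id] at this
    omega

end Pool.Agent.Y635.CR
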